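import Pool.Agent.TH575.CovPol

namespace TH575.Cov

/-- The submodule of polynomial functions `G → R` of degree `< d`. -/
def polMod (R : Type*) [CommRing R] (G : Type*) [Group G] (d : ℕ) : Submodule R (G → R) where
  carrier := {f | PolLT d f}
  zero_mem' := PolLT.zero d
  add_mem' := fun hf hg => PolLT.add hf hg
  smul_mem' := fun c _ hf => hf.comp_addHom (AddMonoidHom.mulLeft c)

theorem mem_polMod {R : Type*} [CommRing R] {G : Type*} [Group G] {d : ℕ} {f : G → R} :
    f ∈ polMod R G d ↔ PolLT d f := Iff.rfl

/-- exponent in the counting bound -/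
def eNum (r : ℕ) : ℕ → ℕ
  | 0 => 0
  | d+1 => 1 + r * eNum r d

theorem card_polMod_le {R : Type*} [CommRing R] [Finite R] {G : Type*} [Group G] [Finite G]
    {r : ℕ} (x : Fin r → G) (hx : Subgroup.closure (Set.range x) = ⊤) (d : ℕ) :
    Nat.card (polMod R G d) ≤ Nat.card R ^ eNum r d := by
  induction d with
  | zero =>
    have : Subsingleton (polMod R G 0) := by
      constructor
      rintro ⟨f, hf⟩ ⟨g, hg⟩
      have h1 : f = 0 := hf
      have h2 : g = 0 := hg
      subst h1 h2
      rfl
    simp [eNum]
  | succ d ih =>
    let Φ : polMod R G (d+1) → R × (Fin r → polMod R G d) := fun f =>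
      (f.1 1, fun i => ⟨fun y => f.1 (x i * y) - f.1 y, f.2 (x i)⟩)
    have hΦ : Function.Injective Φ := by
      intro f f' h
      have h1 : f.1 1 = f'.1 1 := congrArg Prod.fst h
      have h2 : ∀ i y, f.1 (x i * y) - f.1 y = f'.1 (x i * y) - f'.1 y := by
        intro i y
        have := congrFun (congrArg Prod.snd h) i
        exact congrFun (congrArg Subtype.val this) y
      let S : Subgroup G :=
        { carrier := {u | ∀ y, f.1 (u * y) - f.1 y = f'.1 (u * y) - f'.1 y}
          one_mem' := by intro y; simp
          mul_mem' := by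
            intro a b ha hb y
            have e1 := ha (b * y)
            have e2 := hb y
            rw [mul_assoc]
            linear_combination e1 + e2
          inv_mem' := by
            intro a ha y
            have e1 := ha (a⁻¹ * y)
            simp only [mul_inv_cancel_left] at e1
            linear_combination -e1 }
      have hS : S = ⊤ := by
        rw [eq_top_iff, ← hx, Subgroup.closure_le]
        rintro _ ⟨i, rfl⟩
        exact h2 i
      apply Subtype.ext
      funext u
      have hu : u ∈ S := by rw [hS]; trivial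
      have := hu 1
      simp only [mul_one] at this
      linear_combination this + h1
    have h3 : Finite (polMod R G d) := inferInstance
    calc Nat.card (polMod R G (d+1)) ≤ Nat.card (R × (Fin r → polMod R G d)) :=
          Nat.card_le_card_of_injective Φ hΦ
      _ = Nat.card R * (Nat.card (polMod R G d)) ^ r := by
          rw [Nat.card_prod, Nat.card_fun]; simp
      _ ≤ Nat.card R * (Nat.card R ^ eNum r d) ^ r := by gcongr
      _ = Nat.card R ^ eNum r (d+1) := by
          rw [eNum, pow_add, ← pow_mul, pow_one, mul_comm r]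

theorem exists_gens {p : ℕ} [hp : Fact p.Prime] {n : ℕ} {G : Type*} [Group G]
    (h : Nat.card G = p ^ n) : ∃ x : Fin n → G, Subgroup.closure (Set.range x) = ⊤ := by
  have hfin : Finite G := Nat.finite_of_card_ne_zero (by rw [h]; exact pow_ne_zero _ hp.1.ne_zero)
  have key : ∀ k ≤ n, ∃ x : Fin k → G, p ^ k ∣ Nat.card (Subgroup.closure (Set.range x)) := by
    intro k
    induction k with
    | zero => intro _; exact ⟨Fin.elim0, by simp⟩
    | succ k ih =>
      intro hk
      obtain ⟨x, hx⟩ := ih (by omega)
      by_cases htop : Subgroup.closure (Set.range x) = ⊤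
      · refine ⟨Fin.cons 1 x, ?_⟩
        have : Subgroup.closure (Set.range (Fin.cons 1 x : Fin (k+1) → G)) = ⊤ := by
          rw [eq_top_iff, ← htop]
          apply Subgroup.closure_mono
          rw [Fin.range_cons]
          exact Set.subset_insert _ _
        rw [this, Subgroup.card_top, h]
        exact pow_dvd_pow p hk
      · obtain ⟨a, ha⟩ : ∃ a, a ∉ Subgroup.closure (Set.range x) := by
          by_contra hcon
          push Not at hcon
          exact htop (eq_top_iff.2 fun a _ => hcon a)
        refine ⟨Fin.cons a x, ?_⟩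
        set K := Subgroup.closure (Set.range x) with hK
        set K' := Subgroup.closure (Set.range (Fin.cons a x : Fin (k+1) → G)) with hK'
        have hle : K ≤ K' := by
          apply Subgroup.closure_mono
          rw [Fin.range_cons]
          exact Set.subset_insert _ _
        have haK' : a ∈ K' := by
          apply Subgroup.subset_closure
          rw [Fin.range_cons]
          exact Set.mem_insert _ _
        have hd : Nat.card K ∣ Nat.card K' := Subgroup.card_dvd_of_le hle
        have hd' : Nat.card K' ∣ p ^ n := by rw [← h]; exact Subgroup.card_subgroup_dvd_card K'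
        obtain ⟨j', _, hj'⟩ := (Nat.dvd_prime_pow hp.1).1 hd'
        obtain ⟨j, _, hj⟩ := (Nat.dvd_prime_pow hp.1).1 (hd.trans hd')
        have hne : Nat.card K ≠ Nat.card K' := by
          intro he
          have := Subgroup.eq_of_le_of_card_ge hle he.ge
          exact ha (this ▸ haK')
        have hkj : k ≤ j := (Nat.pow_dvd_pow_iff_le_right hp.1.one_lt).1 (hj ▸ hx)
        have hjj' : j ≤ j' := by
          rw [hj, hj'] at hd
          exact (Nat.pow_dvd_pow_iff_le_right hp.1.one_lt).1 hd
        have hjne : j ≠ j' := by
          rintro rfl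
          exact hne (hj.trans hj'.symm)
        rw [hj']
        exact pow_dvd_pow p (by omega)
  obtain ⟨x, hx⟩ := key n le_rfl
  refine ⟨x, ?_⟩
  apply Subgroup.eq_top_of_card_eq
  apply Nat.dvd_antisymm (Subgroup.card_subgroup_dvd_card _)
  rw [h]
  exact hx

/-- Unipotence of the action of a finite `p`-group on a finite abelian `p`-group. -/
theorem unip {p : ℕ} [hp : Fact p.Prime] {Γ : Type*} [Group Γ] [Finite Γ] (hΓ : IsPGroup p Γ) :
    ∀ (l : List Γ) (W : Type) [AddCommGroup W] [Finite W] [DistribMulAction Γ W],
      (∃ c, Nat.card W = p ^ c) → Nat.card W ≤ p ^ l.length → ∀ w : W,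
      l.foldr (fun g w => g • w - w) w = 0 := by
  intro l
  induction l with
  | nil =>
    intro W _ _ _ _ hl w
    have : Subsingleton W := by
      rw [← Finite.card_le_one_iff_subsingleton]
      simpa using hl
    exact Subsingleton.elim _ _
  | cons g l ih =>
    intro W _ _ _ hW hl w
    rcases subsingleton_or_nontrivial W with hs | hnt
    · exact Subsingleton.elim _ _
    obtain ⟨c, hc⟩ := hW
    have hc0 : c ≠ 0 := by
      rintro rfl
      have h1 := Finite.one_lt_card (α := W)
      rw [hc] at h1
      simp at h1
    have hpd : p ∣ Nat.card W := by rw [hc]; exact dvd_pow_self p hc0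
    let V : AddSubgroup W := FixedPoints.addSubgroup Γ W
    have hV : ∀ v : W, v ∈ V ↔ ∀ g : Γ, g • v = v := fun v => Iff.rfl
    obtain ⟨b, hb, hb0⟩ := hΓ.exists_fixed_point_of_prime_dvd_card_of_fixed_point W hpd
      (a := (0 : W)) (by intro g; exact smul_zero g)
    have hVne : V ≠ ⊥ := by
      intro h
      have : b ∈ V := hb
      rw [h] at this
      exact hb0 this.symm
    have hcardV : p ∣ Nat.card V := by
      have h1 : Nat.card V ∣ p ^ c := by rw [← hc]; exact AddSubgroup.card_addSubgroup_dvd_card V
      obtain ⟨j, _, hj⟩ := (Nat.dvd_prime_pow hp.1).1 h1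
      rw [hj]
      apply dvd_pow_self
      rintro rfl
      apply hVne
      rw [pow_zero] at hj
      exact AddSubgroup.card_eq_one.1 hj
    have hmul : Nat.card (W ⧸ V) * Nat.card V = Nat.card W :=
      (AddSubgroup.card_eq_card_quotient_mul_card_addSubgroup V).symm
    have hle : ∀ g : Γ, V ≤ V.comap (DistribSMul.toAddMonoidHom W g) := by
      intro g v hv
      rw [AddSubgroup.mem_comap, hV]
      intro g'
      have h1 : DistribSMul.toAddMonoidHom W g v = v := (hV v).1 hv g
      rw [h1]
      exact (hV v).1 hv g'
    let _ : SMul Γ (W ⧸ V) := ⟨fun g => QuotientAddGroup.map V V (DistribSMul.toAddMonoidHom W g) (hle g)⟩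
    let _ : DistribMulAction Γ (W ⧸ V) :=
      Function.Surjective.distribMulAction (QuotientAddGroup.mk' V)
        (QuotientAddGroup.mk'_surjective V) (fun _ _ => rfl)
    have hq1 : ∃ c', Nat.card (W ⧸ V) = p ^ c' := by
      have : Nat.card (W ⧸ V) ∣ p ^ c := ⟨Nat.card V, by rw [hmul, hc]⟩
      obtain ⟨j, _, hj⟩ := (Nat.dvd_prime_pow hp.1).1 this
      exact ⟨j, hj⟩
    have hq2 : Nat.card (W ⧸ V) ≤ p ^ l.length := by
      have h1 : Nat.card (W ⧸ V) * p ≤ p ^ l.length * p := by
        calc Nat.card (W ⧸ V) * p ≤ Nat.card (W ⧸ V) * Nat.card V :=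
              Nat.mul_le_mul_left _ (Nat.le_of_dvd Nat.card_pos hcardV)
          _ = Nat.card W := hmul
          _ ≤ p ^ l.length * p := by simpa [pow_succ] using hl
      exact Nat.le_of_mul_le_mul_right h1 hp.1.pos
    have hI := ih (W ⧸ V) hq1 hq2 (QuotientAddGroup.mk' V w)
    have hcomm : ∀ l' : List Γ, l'.foldr (fun g (w : W ⧸ V) => g • w - w) (QuotientAddGroup.mk' V w)
        = QuotientAddGroup.mk' V (l'.foldr (fun g w => g • w - w) w) := by
      intro l'
      induction l' with
      | nil => rfl
      | cons a l' ih' =>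
        simp only [List.foldr_cons]
        rw [ih']
        rfl
    rw [hcomm] at hI
    have hmem : l.foldr (fun g w => g • w - w) w ∈ V := by
      rwa [QuotientAddGroup.mk'_apply, QuotientAddGroup.eq_zero_iff] at hI
    simp only [List.foldr_cons]
    rw [(hV _).1 hmem g, sub_self]

end TH575.Cov
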