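import Pool.Agent.TH575.CovSep

namespace TH575.Cov

open DirectSum

/-- structure theorem, in the shape we need. -/
theorem abelian_p_struct {p : ℕ} (hp : p.Prime) (b : ℕ) (W : Type) [AddCommGroup W]
    (c : ℕ) (hc : Nat.card W = p ^ c) (hcb : c ≤ b) :
    ∃ m : Fin b → Fin (b+1), Nonempty (W ≃+ ((i : Fin b) → ZMod (p ^ (m i : ℕ)))) := by
  classical
  have hfin : Finite W := Nat.finite_of_card_ne_zero (by rw [hc]; exact pow_ne_zero _ hp.ne_zero)
  obtain ⟨ι, hι, q, hq, ⟨e⟩⟩ := AddCommGroup.equiv_directSum_zmod_of_finite' W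
  have e2 : W ≃+ ((i : ι) → ZMod (q i)) := e.trans (DirectSum.addEquivProd _)
  have hcard : ∏ i, q i = p ^ c := by
    rw [← hc, Nat.card_congr e2.toEquiv, Nat.card_pi]
    apply Finset.prod_congr rfl
    intro i _
    rw [Nat.card_zmod]
  have hqi : ∀ i, ∃ k ≤ c, q i = p ^ k := by
    intro i
    have : q i ∣ p ^ c := by
      rw [← hcard]
      exact Finset.dvd_prod_of_mem q (Finset.mem_univ i)
    exact (Nat.dvd_prime_pow hp).1 this
  choose k hk1 hk2 using hqi
  have hk3 : ∀ i, 1 ≤ k i := by
    intro i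
    by_contra h
    have h0 : k i = 0 := by omega
    have := hq i
    rw [hk2, h0] at this
    simp at this
  have hsum : ∑ i, k i = c := by
    have h1 : ∏ i, q i = p ^ ∑ i, k i := by
      rw [← Finset.prod_pow_eq_pow_sum]
      exact Finset.prod_congr rfl fun i _ => hk2 i
    rw [hcard] at h1
    exact (Nat.pow_right_injective hp.two_le h1).symm
  have hιb : Fintype.card ι ≤ b := by
    refine le_trans ?_ hcb
    rw [← hsum]
    calc Fintype.card ι = ∑ _i : ι, 1 := by simp
      _ ≤ ∑ i, k i := Finset.sum_le_sum fun i _ => hk3 i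
  obtain ⟨φ⟩ : Nonempty (ι ↪ Fin b) := by
    rw [Function.Embedding.nonempty_iff_card_le]
    simpa using hιb
  -- the exponents
  let mm : Fin b → ℕ := fun j => if h : ∃ i, φ i = j then k h.choose else 0
  have hmm1 : ∀ i, mm (φ i) = k i := by
    intro i
    have h : ∃ i', φ i' = φ i := ⟨i, rfl⟩
    have : h.choose = i := φ.injective h.choose_spec
    simp only [mm]
    rw [dif_pos h, this]
  have hmm2 : ∀ j, mm j < b + 1 := by
    intro j
    simp only [mm]
    split_ifs with h
    · have := hk1 h.choose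
      omega
    · omega
  have hmm3 : ∀ j, (¬ ∃ i, φ i = j) → mm j = 0 := by
    intro j h
    simp only [mm]
    rw [dif_neg h]
  refine ⟨fun j => ⟨mm j, hmm2 j⟩, ⟨e2.trans ?_⟩⟩
  -- the restriction map along φ
  have hcast : ∀ i, q i = p ^ (mm (φ i)) := by
    intro i
    rw [hmm1, hk2]
  let E : ((j : Fin b) → ZMod (p ^ (mm j))) →+ ((i : ι) → ZMod (q i)) :=
    { toFun := fun x i => (ZMod.ringEquivCongr (hcast i).symm) (x (φ i))
      map_zero' := by funext i; simp
      map_add' := by intro x y; funext i; simp }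
  have hE : Function.Bijective E := by
    constructor
    · rw [injective_iff_map_eq_zero]
      intro x hx
      funext j
      by_cases h : ∃ i, φ i = j
      · obtain ⟨i, rfl⟩ := h
        have := congrFun hx i
        exact (map_eq_zero_iff _ (ZMod.ringEquivCongr (hcast i).symm).injective).1 this
      · have h0 := hmm3 j h
        have : Subsingleton (ZMod (p ^ (mm j))) := by
          rw [h0, pow_zero]
          infer_instance
        exact Subsingleton.elim _ _
    · intro y
      refine ⟨fun j => if h : ∃ i, φ i = j then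
        (ZMod.ringEquivCongr (by rw [hcast, h.choose_spec] : q h.choose = p ^ (mm j))) (y h.choose)
          else 0, ?_⟩
      funext i
      have h : ∃ i', φ i' = φ i := ⟨i, rfl⟩
      have hch : h.choose = i := φ.injective h.choose_spec
      change (ZMod.ringEquivCongr (hcast i).symm) (dite _ _ _) = y i
      rw [dif_pos h]
      have : ∀ (i' : ι) (hi : i' = i) (pf : q i' = p ^ mm (φ i)),
          (ZMod.ringEquivCongr (hcast i).symm) ((ZMod.ringEquivCongr pf) (y i')) = y i := by
        intro i' hi pf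
        subst hi
        rw [ZMod.ringEquivCongr_ringEquivCongr_apply]
        exact ZMod.ringEquivCongr_refl_apply _
      exact this _ hch _
  exact (AddEquiv.ofBijective E hE).symm

/-- The group with bounded exponent containing all groups acting faithfully on an abelian
`p`-group of order at most `p ^ b`. -/
abbrev UU (p b : ℕ) : Type :=
  (m : Fin b → Fin (b+1)) → (AddMonoid.End ((i : Fin b) → ZMod (p ^ (m i : ℕ))))ˣ

theorem card_end_le {p b : ℕ} (hp : p.Prime) (m : Fin b → Fin (b+1)) :
    Finite (AddMonoid.End ((i : Fin b) → ZMod (p ^ (m i : ℕ))))ˣ ∧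
    Nat.card (AddMonoid.End ((i : Fin b) → ZMod (p ^ (m i : ℕ))))ˣ ≤ p ^ (b * b * b) := by
  classical
  have hfin1 : ∀ i, Finite (ZMod (p ^ (m i : ℕ))) := by
    intro i
    have : NeZero (p ^ (m i : ℕ)) := ⟨pow_ne_zero _ hp.ne_zero⟩
    infer_instance
  have hA : Nat.card ((i : Fin b) → ZMod (p ^ (m i : ℕ))) ≤ p ^ (b * b) := by
    rw [Nat.card_pi]
    simp only [Nat.card_zmod]
    rw [Finset.prod_pow_eq_pow_sum]
    apply Nat.pow_le_pow_right hp.pos
    calc ∑ i, (m i : ℕ) ≤ ∑ _i : Fin b, b := Finset.sum_le_sum fun i _ => by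
          have := (m i).2
          omega
      _ = b * b := by simp
  let Φ : (AddMonoid.End ((i : Fin b) → ZMod (p ^ (m i : ℕ))))ˣ →
      (Fin b → ((i : Fin b) → ZMod (p ^ (m i : ℕ)))) := fun T j => T.1 (Pi.single j 1)
  have hΦ : Function.Injective Φ := by
    intro T T' h
    apply Units.ext
    have h1 : (T.1 : ((i : Fin b) → ZMod (p ^ (m i : ℕ))) →+ ((i : Fin b) → ZMod (p ^ (m i : ℕ)))) =
        T'.1 := by
      apply AddMonoidHom.functions_ext'
      intro j
      apply AddMonoidHom.ext
      intro a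
      obtain ⟨k, rfl⟩ := ZMod.intCast_surjective a
      have h2 : (Pi.single j ((k : ℤ) : ZMod (p ^ (m j : ℕ))) : (i : Fin b) → ZMod (p ^ (m i : ℕ)))
          = k • Pi.single j (1 : ZMod (p ^ (m j : ℕ))) := by
        rw [← Pi.single_smul]
        simp
      have h3 : T.1 (Pi.single j 1) = T'.1 (Pi.single j 1) := congrFun h j
      change T.1 (Pi.single j _) = T'.1 (Pi.single j _)
      rw [h2, map_zsmul, map_zsmul, h3]
    exact h1
  have hfin2 : Finite (Fin b → ((i : Fin b) → ZMod (p ^ (m i : ℕ)))) := inferInstance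
  refine ⟨Finite.of_injective Φ hΦ, ?_⟩
  refine (Nat.card_le_card_of_injective Φ hΦ).trans ?_
  rw [Nat.card_fun, Nat.card_fin, pow_mul p (b*b) b]
  exact Nat.pow_le_pow_left hA b

theorem card_UU_le {p b : ℕ} (hp : p.Prime) :
    Finite (UU p b) ∧ Nat.card (UU p b) ≤ p ^ (b * b * b * (b+1) ^ b) := by
  classical
  have hfin : ∀ m : Fin b → Fin (b+1), Finite (AddMonoid.End ((i : Fin b) → ZMod (p ^ (m i : ℕ))))ˣ :=
    fun m => (card_end_le hp m).1
  refine ⟨inferInstance, ?_⟩
  rw [Nat.card_pi]
  calc ∏ m : Fin b → Fin (b+1), Nat.card (AddMonoid.End ((i : Fin b) → ZMod (p ^ (m i : ℕ))))ˣ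
      ≤ ∏ _m : Fin b → Fin (b+1), p ^ (b * b * b) :=
        Finset.prod_le_prod' fun m _ => (card_end_le hp m).2
    _ = p ^ (b * b * b * (b+1) ^ b) := by
        rw [Finset.prod_const, ← pow_mul]
        simp

/-- conjugation of endomorphisms by an equivalence -/
def conjEnd {W A : Type} [AddCommGroup W] [AddCommGroup A] (e : W ≃+ A) :
    AddMonoid.End W →* AddMonoid.End A where
  toFun T := (e.toAddMonoidHom.comp T).comp e.symm.toAddMonoidHom
  map_one' := by
    apply AddMonoidHom.ext
    intro a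
    change e (e.symm a) = a
    simp
  map_mul' := by
    intro S T
    apply AddMonoidHom.ext
    intro a
    change e (S (T (e.symm a))) = e (S (e.symm (e (T (e.symm a)))))
    simp

theorem conjEnd_injective {W A : Type} [AddCommGroup W] [AddCommGroup A] (e : W ≃+ A) :
    Function.Injective (conjEnd e) := by
  intro S T h
  apply AddMonoidHom.ext
  intro w
  have h1 := DFunLike.congr_fun h (e w)
  change e (S (e.symm (e w))) = e (T (e.symm (e w))) at h1
  rw [e.symm_apply_apply] at h1
  exact e.injective h1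

theorem embed_UU {p b : ℕ} (hp : p.Prime) (P : Type) [Group P] (W : Type) [AddCommGroup W]
    (c : ℕ) (hc : Nat.card W = p ^ c) (hcb : c ≤ b) (ρ : P →* AddMonoid.End W)
    (hρ : Function.Injective ρ) : ∃ φ : P →* UU p b, Function.Injective φ := by
  classical
  obtain ⟨m, ⟨e⟩⟩ := abelian_p_struct hp b W c hc hcb
  let ψ : P →* AddMonoid.End ((i : Fin b) → ZMod (p ^ (m i : ℕ))) := (conjEnd e).comp ρ
  have hψ : Function.Injective ψ := (conjEnd_injective e).comp hρ
  have hψ' : Function.Injective (MonoidHom.toHomUnits ψ) := by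
    intro x y h
    apply hψ
    exact congrArg Units.val h
  refine ⟨(MonoidHom.mulSingle (fun m : Fin b → Fin (b+1) =>
    (AddMonoid.End ((i : Fin b) → ZMod (p ^ (m i : ℕ))))ˣ) m).comp (MonoidHom.toHomUnits ψ), ?_⟩
  rw [MonoidHom.coe_comp]
  exact (Pi.mulSingle_injective m).comp hψ'

/-- the regular representation on polynomial functions by right translation. -/
theorem exists_faithful {p n D : ℕ} (P : Type) [Group P]
    (hsep : ∀ y : P, y ≠ 1 → ∃ f : P → ZMod (p ^ n), PolLT D f ∧ f y ≠ f 1) :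
    ∃ ρ : P →* AddMonoid.End (polMod (ZMod (p ^ n)) P D), Function.Injective ρ := by
  let ρ : P →* AddMonoid.End (polMod (ZMod (p ^ n)) P D) :=
    { toFun := fun g =>
        { toFun := fun f => ⟨fun x => f.1 (x * g), PolLT.right g f.2⟩
          map_zero' := rfl
          map_add' := fun _ _ => rfl }
      map_one' := by
        apply AddMonoidHom.ext
        intro f
        apply Subtype.ext
        funext x
        change f.1 (x * 1) = f.1 x
        rw [mul_one]
      map_mul' := by
        intro g h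
        apply AddMonoidHom.ext
        intro f
        apply Subtype.ext
        funext x
        change f.1 (x * (g * h)) = f.1 (x * g * h)
        rw [mul_assoc] }
  refine ⟨ρ, ?_⟩
  rw [injective_iff_map_eq_one]
  intro y hy
  by_contra hne
  obtain ⟨f, hf, hfy⟩ := hsep y hne
  apply hfy
  have h1 := congrArg (fun T : AddMonoid.End (polMod (ZMod (p ^ n)) P D) => (T ⟨f, hf⟩).1 1) hy
  have h2 : f (1 * y) = f 1 := h1
  rwa [one_mul] at h2

theorem main_bound (n : ℕ) : ∃ b p₀ : ℕ, ∀ p : ℕ, p.Prime → p₀ ≤ p → ∀ (P : Type) [Group P],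
    Nat.card P = p ^ n → ∃ φ : P →* UU p b, Function.Injective φ := by
  obtain ⟨D, p₀, h⟩ := sep_all n
  refine ⟨n * eNum n D, p₀, ?_⟩
  intro p hp hpp P _ hP
  have hpF : Fact p.Prime := ⟨hp⟩
  have hfin : Finite P := Nat.finite_of_card_ne_zero (by rw [hP]; exact pow_ne_zero _ hp.ne_zero)
  have hRfin : Finite (ZMod (p ^ n)) := by
    have : NeZero (p ^ n) := ⟨pow_ne_zero _ hp.ne_zero⟩
    infer_instance
  have hRcard : Nat.card (ZMod (p ^ n)) = p ^ n := Nat.card_zmod _
  obtain ⟨ρ, hρ⟩ := exists_faithful (D := D) P (h p hp hpp P hP)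
  have hWle : Nat.card (polMod (ZMod (p ^ n)) P D) ≤ p ^ (n * eNum n D) := by
    obtain ⟨x, hx⟩ := exists_gens (p := p) hP
    have h1 := card_polMod_le (R := ZMod (p ^ n)) x hx D
    rwa [hRcard, ← pow_mul] at h1
  obtain ⟨c, hc⟩ : ∃ c, Nat.card (polMod (ZMod (p ^ n)) P D) = p ^ c := by
    have h1 : Nat.card (polMod (ZMod (p ^ n)) P D) ∣ Nat.card (P → ZMod (p ^ n)) :=
      AddSubgroup.card_addSubgroup_dvd_card (polMod (ZMod (p ^ n)) P D).toAddSubgroup
    rw [Nat.card_fun, hRcard, ← pow_mul] at h1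
    obtain ⟨j, _, hj⟩ := (Nat.dvd_prime_pow hp).1 h1
    exact ⟨j, hj⟩
  have hcb : c ≤ n * eNum n D := by
    rw [hc] at hWle
    exact (Nat.pow_le_pow_iff_right hp.one_lt).1 hWle
  exact embed_UU hp P _ c hc hcb ρ hρ

end TH575.Cov
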