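import Mathlib

namespace TH575.Cov

open Polynomial

/-- Interpolation weights extracting the linear coefficient. -/
theorem exists_mu {R : Type*} [CommRing R] (m : ℕ)
    (hu : ∀ k : ℕ, 1 ≤ k → k ≤ m → IsUnit (k : R)) :
    ∃ μ : ℕ → R, ∀ q : R[X], q.natDegree ≤ m →
      ∑ k ∈ Finset.range (m+1), μ k * q.eval (k : R) = q.coeff 1 := by
  classical
  let v : Fin (m+1) → R := fun k => ((k : ℕ) : R)
  have hdet : IsUnit (Matrix.vandermonde v).det := by
    rw [Matrix.det_vandermonde]
    rw [IsUnit.prod_iff]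
    intro i _
    rw [IsUnit.prod_iff]
    intro j hj
    have hij : i < j := by simpa using hj
    have h1 : v j - v i = (((j : ℕ) - (i : ℕ) : ℕ) : R) := by
      simp only [v]
      rw [Nat.cast_sub (le_of_lt hij)]
    rw [h1]
    apply hu
    · have : (i : ℕ) < j := hij
      omega
    · have := j.2
      omega
  let e : Fin (m+1) → R := fun i => if (i : ℕ) = 1 then 1 else 0
  let μ' : Fin (m+1) → R := Matrix.vecMul e (Matrix.vandermonde v)⁻¹
  have hμ' : Matrix.vecMul μ' (Matrix.vandermonde v) = e := by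
    simp only [μ']
    rw [Matrix.vecMul_vecMul, Matrix.nonsing_inv_mul _ hdet, Matrix.vecMul_one]
  have hμ'' : ∀ i : Fin (m+1), ∑ k : Fin (m+1), μ' k * ((k : ℕ) : R) ^ (i : ℕ) =
      if (i : ℕ) = 1 then 1 else 0 := by
    intro i
    have := congrFun hμ' i
    simpa [Matrix.vecMul, dotProduct, Matrix.vandermonde_apply, v, e] using this
  refine ⟨fun k => if h : k < m + 1 then μ' ⟨k, h⟩ else 0, ?_⟩
  intro q hq
  rw [Finset.sum_range]
  have h1 : ∀ k : Fin (m+1), (if h : (k : ℕ) < m + 1 then μ' ⟨k, h⟩ else 0) * q.eval ((k : ℕ) : R)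
      = ∑ i : Fin (m+1), q.coeff i * (μ' k * ((k : ℕ) : R) ^ (i : ℕ)) := by
    intro k
    rw [dif_pos k.2, q.eval_eq_sum_range' (Nat.lt_succ_of_le hq), Finset.sum_range, Finset.mul_sum]
    apply Finset.sum_congr rfl
    intro i _
    simp only [Fin.eta]
    ring
  rw [Finset.sum_congr rfl (fun k _ => h1 k), Finset.sum_comm]
  simp_rw [← Finset.mul_sum, hμ'']
  by_cases hm : 1 < m + 1
  · rw [Finset.sum_eq_single (⟨1, hm⟩ : Fin (m+1))]
    · simp
    · intro b _ hb
      have : (b : ℕ) ≠ 1 := fun h => hb (Fin.ext h)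
      simp [this]
    · simp
  · have hm0 : m = 0 := by omega
    subst hm0
    simp
    rw [Polynomial.coeff_eq_zero_of_natDegree_lt]
    omega

/-- The data of interpolation weights up to degree `m`, with factorials invertible. -/
structure Mu (R : Type*) [CommRing R] (m : ℕ) where
  μ : ℕ → R
  sum_eq : ∀ q : R[X], q.natDegree ≤ m →
      ∑ k ∈ Finset.range (m+1), μ k * q.eval (k : R) = q.coeff 1
  unit_fact : ∀ k : ℕ, k ≤ m → IsUnit ((Nat.factorial k : ℕ) : R)

theorem exists_Mu {R : Type*} [CommRing R] (m : ℕ)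
    (hu : ∀ k : ℕ, 1 ≤ k → k ≤ m → IsUnit (k : R)) : Nonempty (Mu R m) := by
  obtain ⟨μ, hμ⟩ := exists_mu (R := R) m hu
  refine ⟨⟨μ, hμ, ?_⟩⟩
  intro k hk
  induction k with
  | zero => simp
  | succ k ih =>
    rw [Nat.factorial_succ, Nat.cast_mul]
    exact (hu (k+1) (by omega) hk).mul (ih (by omega))

namespace Mu

variable {R : Type*} [CommRing R] {m : ℕ} (M : Mu R m)

theorem natDegree_descPochhammer_le (i : ℕ) : (descPochhammer R i).natDegree ≤ i := by
  rcases subsingleton_or_nontrivial R with h | h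
  · rw [Subsingleton.elim (descPochhammer R i) 0]; simp
  · induction i with
    | zero => simp
    | succ i ih =>
      rw [descPochhammer_succ_right]
      refine (Polynomial.natDegree_mul_le).trans ?_
      have : (X - (i : R[X])).natDegree ≤ 1 := by
        rw [← Polynomial.C_eq_natCast]
        exact Polynomial.natDegree_X_sub_C_le _
      omega

theorem coeff_zero_descPochhammer (i : ℕ) (hi : 1 ≤ i) : (descPochhammer R i).coeff 0 = 0 := by
  obtain ⟨i, rfl⟩ : ∃ j, i = j + 1 := ⟨i - 1, by omega⟩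
  rw [descPochhammer_succ_left]
  simp

theorem eval_desc (i k : ℕ) : (descPochhammer R i).eval (k : R) = (i.factorial : R) * (k.choose i : R) := by
  rw [descPochhammer_eval_eq_descFactorial, Nat.descFactorial_eq_factorial_mul_choose]
  push_cast
  ring

/-- the weighted sum of binomials vanishes when both indices are positive -/
theorem sum_choose_mul (i j : ℕ) (hi : 1 ≤ i) (hj : 1 ≤ j) (hij : i + j ≤ m) :
    ∑ k ∈ Finset.range (m+1), M.μ k * ((k.choose i : R) * (k.choose j : R)) = 0 := by
  have h1 := M.sum_eq (descPochhammer R i * descPochhammer R j)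
    ((Polynomial.natDegree_mul_le).trans
      ((add_le_add (natDegree_descPochhammer_le i) (natDegree_descPochhammer_le j)).trans hij))
  have h2 : (descPochhammer R i * descPochhammer R j).coeff 1 = 0 := by
    rw [Polynomial.coeff_mul]
    have : (Finset.HasAntidiagonal.antidiagonal 1 : Finset (ℕ × ℕ)) = {(0,1),(1,0)} := by decide
    rw [this]
    simp [coeff_zero_descPochhammer i hi, coeff_zero_descPochhammer j hj]
  rw [h2] at h1
  have hu : IsUnit ((i.factorial : R) * (j.factorial : R)) :=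
    (M.unit_fact i (by omega)).mul (M.unit_fact j (by omega))
  apply hu.mul_left_cancel
  rw [mul_zero, Finset.mul_sum, ← h1]
  apply Finset.sum_congr rfl
  intro k _
  rw [Polynomial.eval_mul, eval_desc, eval_desc]
  ring

/-- weights of the logarithm in terms of binomials. -/
def ν (j : ℕ) : R := ∑ k ∈ Finset.range (m+1), M.μ k * (k.choose j : R)

theorem ν_zero : M.ν 0 = 0 := by
  have := M.sum_eq 1 (by simp)
  simpa [ν, Polynomial.coeff_one] using this

theorem ν_one (hm : 1 ≤ m) : M.ν 1 = 1 := by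
  have := M.sum_eq X ((Polynomial.natDegree_X_le).trans hm)
  simpa [ν] using this

variable {A : Type*} [Ring A] [Algebra R A]

/-- the truncated logarithm operator. -/
def lg (U : A) : A := ∑ k ∈ Finset.range (m+1), M.μ k • U ^ k

theorem pow_eq_sum (U : A) (C k : ℕ) (hU : (U - 1) ^ C = 0) :
    U ^ k = ∑ i ∈ Finset.range C, (k.choose i : R) • (U - 1) ^ i := by
  have h1 : U ^ k = ((U - 1) + 1) ^ k := by rw [sub_add_cancel]
  rw [h1, (Commute.one_right (U - 1)).add_pow]
  have h2 : ∀ i, (U - 1) ^ i * 1 ^ (k - i) * ((k.choose i : ℕ) : A) = (k.choose i : R) • (U - 1) ^ i := by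
    intro i
    rw [one_pow, mul_one, Algebra.smul_def, map_natCast]
    exact (Nat.cast_commute _ _).eq.symm
  simp_rw [h2]
  have h3 : ∀ N, C ≤ N → ∑ i ∈ Finset.range N, (k.choose i : R) • (U - 1) ^ i =
      ∑ i ∈ Finset.range C, (k.choose i : R) • (U - 1) ^ i := by
    intro N hN
    symm
    apply Finset.sum_subset (Finset.range_mono hN)
    intro i _ hi
    have : C ≤ i := by simpa using hi
    rw [pow_eq_zero_of_le this hU, smul_zero]
  have h4 : ∀ N, k + 1 ≤ N → ∑ i ∈ Finset.range N, (k.choose i : R) • (U - 1) ^ i =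
      ∑ i ∈ Finset.range (k+1), (k.choose i : R) • (U - 1) ^ i := by
    intro N hN
    symm
    apply Finset.sum_subset (Finset.range_mono hN)
    intro i _ hi
    have : k + 1 ≤ i := by simpa using hi
    rw [Nat.choose_eq_zero_of_lt (by omega)]
    simp
  rw [← h3 (max C (k+1)) (le_max_left _ _), ← h4 (max C (k+1)) (le_max_right _ _)]

theorem lg_eq (U : A) (C : ℕ) (hU : (U - 1) ^ C = 0) :
    M.lg U = ∑ i ∈ Finset.range C, M.ν i • (U - 1) ^ i := by
  unfold lg ν
  simp_rw [pow_eq_sum (R := R) U C _ hU, Finset.smul_sum, Finset.sum_smul]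
  rw [Finset.sum_comm]
  apply Finset.sum_congr rfl
  intro i _
  apply Finset.sum_congr rfl
  intro k _
  rw [smul_smul]

theorem lg_mul (U V : A) (hc : Commute U V) (B : ℕ) (hU : (U - 1) ^ (B+1) = 0)
    (hV : (V - 1) ^ (B+1) = 0) (hB : 2 * B ≤ m) : M.lg (U * V) = M.lg U + M.lg V := by
  have h1 : M.lg (U * V) = ∑ i ∈ Finset.range (B+1), ∑ j ∈ Finset.range (B+1),
      (∑ k ∈ Finset.range (m+1), M.μ k * ((k.choose i : R) * (k.choose j : R))) •
        ((U - 1) ^ i * (V - 1) ^ j) := by
    unfold lg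
    simp_rw [hc.mul_pow, pow_eq_sum (R := R) U (B+1) _ hU, pow_eq_sum (R := R) V (B+1) _ hV,
      Finset.sum_mul_sum, Finset.smul_sum, Finset.sum_smul]
    rw [Finset.sum_comm]
    apply Finset.sum_congr rfl
    intro i _
    rw [Finset.sum_comm]
    apply Finset.sum_congr rfl
    intro j _
    apply Finset.sum_congr rfl
    intro k _
    rw [smul_mul_smul_comm, smul_smul]
  have h2 : ∀ i ∈ Finset.range B, ∀ j ∈ Finset.range B,
      (∑ k ∈ Finset.range (m+1), M.μ k * ((k.choose (i+1) : R) * (k.choose (j+1) : R))) = 0 := by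
    intro i hi j hj
    have hi' : i < B := by simpa using hi
    have hj' : j < B := by simpa using hj
    exact M.sum_choose_mul (i+1) (j+1) (by omega) (by omega) (by omega)
  have h3 : ∀ j, (∑ k ∈ Finset.range (m+1), M.μ k * ((k.choose 0 : R) * (k.choose j : R))) = M.ν j := by
    intro j
    simp [ν]
  have h4 : ∀ j, (∑ k ∈ Finset.range (m+1), M.μ k * ((k.choose j : R) * (k.choose 0 : R))) = M.ν j := by
    intro j
    simp [ν]
  rw [h1, Finset.sum_range_succ']
  simp_rw [h3]
  rw [M.lg_eq U (B+1) hU, M.lg_eq V (B+1) hV]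
  have h5 : ∑ i ∈ Finset.range B, ∑ j ∈ Finset.range (B+1),
      (∑ k ∈ Finset.range (m+1), M.μ k * ((k.choose (i+1) : R) * (k.choose j : R))) •
        ((U - 1) ^ (i+1) * (V - 1) ^ j) = ∑ i ∈ Finset.range B, M.ν (i+1) • (U - 1) ^ (i+1) := by
    apply Finset.sum_congr rfl
    intro i hi
    rw [Finset.sum_range_succ']
    rw [Finset.sum_eq_zero, h4]
    · simp
    · intro j hj
      rw [h2 i hi j hj, zero_smul]
  rw [h5, Finset.sum_range_succ' (fun i => M.ν i • (U - 1) ^ i)]
  simp [ν_zero]

theorem eq_one_of_lg_eq_zero (hm : 1 ≤ m) (U : A) (C : ℕ) (hU : (U - 1) ^ C = 0)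
    (h : M.lg U = 0) : U = 1 := by
  have hU2 : (U - 1) ^ (C+2) = 0 := pow_eq_zero_of_le (by omega) hU
  rw [M.lg_eq U (C+2) hU2, Finset.sum_range_succ', Finset.sum_range_succ', ν_zero, zero_smul,
    add_zero, zero_add, M.ν_one hm, one_smul, pow_one] at h
  set S : A := ∑ i ∈ Finset.range C, M.ν (i+2) • (U - 1) ^ i with hS
  have hcomm : Commute (U - 1) S := by
    rw [hS]
    apply Commute.sum_right
    intro i _
    exact ((Commute.refl (U-1)).pow_right i).smul_right _
  have h1 : (U - 1) * (1 + (U - 1) * S) = 0 := by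
    rw [mul_add, mul_one, ← mul_assoc, ← pow_two, hS, Finset.mul_sum]
    rw [add_comm] at h
    rw [← h]
    congr 1
    apply Finset.sum_congr rfl
    intro i _
    rw [mul_smul_comm, ← pow_add]
    congr 2
    omega
  have hnil : IsNilpotent ((U - 1) * S) := by
    apply hcomm.isNilpotent_mul_right
    exact ⟨C, hU⟩
  have hunit : IsUnit (1 + (U - 1) * S) := hnil.isUnit_one_add
  have : U - 1 = 0 := by
    obtain ⟨w, hw⟩ := hunit
    rw [← hw] at h1
    exact (Units.mul_left_eq_zero w).1 h1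
  exact sub_eq_zero.1 this

end Mu

end TH575.Cov
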