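import Mathlib

namespace TH575.Cov

/-- `PolLT d f` : the function `f : G → M` is polynomial of degree `< d`
(all `d`-fold left differences vanish). -/
def PolLT {G : Type*} [Group G] {M : Type*} [AddCommGroup M] : ℕ → (G → M) → Prop
  | 0, f => f = 0
  | (d+1), f => ∀ u : G, PolLT d (fun x => f (u * x) - f x)

variable {G : Type*} [Group G] {K : Type*} [Group K] {M N : Type*} [AddCommGroup M] [AddCommGroup N]

theorem polLT_zero_iff {f : G → M} : PolLT 0 f ↔ f = 0 := Iff.rfl

theorem polLT_succ_iff {d : ℕ} {f : G → M} :
    PolLT (d+1) f ↔ ∀ u : G, PolLT d (fun x => f (u * x) - f x) := Iff.rfl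

theorem PolLT.zero (d : ℕ) : PolLT d (fun _ : G => (0 : M)) := by
  induction d with
  | zero => rfl
  | succ d ih =>
    intro u
    simpa using ih

theorem PolLT.comp_addHom (φ : M →+ N) {d : ℕ} {f : G → M} (h : PolLT d f) :
    PolLT d (fun x => φ (f x)) := by
  induction d generalizing f with
  | zero =>
    have : f = 0 := h
    subst this
    funext x
    simp
  | succ d ih =>
    intro u
    have := ih (h u)
    simpa using this

theorem PolLT.comp_hom (φ : K →* G) {d : ℕ} {f : G → M} (h : PolLT d f) :
    PolLT d (fun x => f (φ x)) := by
  induction d generalizing f with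
  | zero =>
    have : f = 0 := h
    subst this
    funext x
    simp
  | succ d ih =>
    intro u
    have := ih (h (φ u))
    simpa using this

theorem PolLT.of_comp_surj (φ : K →* G) (hφ : Function.Surjective φ) {d : ℕ} {f : G → M}
    (h : PolLT d (fun x => f (φ x))) : PolLT d f := by
  induction d generalizing f with
  | zero =>
    funext y
    obtain ⟨x, rfl⟩ := hφ y
    exact congrFun h x
  | succ d ih =>
    intro u
    obtain ⟨v, rfl⟩ := hφ u
    apply ih
    have := h v
    simpa using this

theorem PolLT.add {d : ℕ} {f g : G → M} (hf : PolLT d f) (hg : PolLT d g) :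
    PolLT d (fun x => f x + g x) := by
  induction d generalizing f g with
  | zero =>
    have h1 : f = 0 := hf
    have h2 : g = 0 := hg
    subst h1 h2
    funext x
    simp
  | succ d ih =>
    intro u
    have := ih (hf u) (hg u)
    convert this using 2
    simp only
    abel

theorem PolLT.neg {d : ℕ} {f : G → M} (hf : PolLT d f) : PolLT d (fun x => - f x) :=
  hf.comp_addHom (-(AddMonoidHom.id M))

theorem PolLT.sub {d : ℕ} {f g : G → M} (hf : PolLT d f) (hg : PolLT d g) :
    PolLT d (fun x => f x - g x) := by
  have := hf.add hg.neg
  simpa [sub_eq_add_neg] using this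

theorem PolLT.sum {ι : Type*} (s : Finset ι) {d : ℕ} {f : ι → G → M}
    (h : ∀ i ∈ s, PolLT d (f i)) : PolLT d (fun x => ∑ i ∈ s, f i x) := by
  classical
  induction s using Finset.induction_on with
  | empty => simpa using PolLT.zero d
  | insert a s ha ih =>
    simp only [Finset.sum_insert ha]
    exact (h a (Finset.mem_insert_self a s)).add
      (ih fun i hi => h i (Finset.mem_insert_of_mem hi))

theorem PolLT.succ {d : ℕ} {f : G → M} (hf : PolLT d f) : PolLT (d+1) f := by
  induction d generalizing f with
  | zero =>
    have h1 : f = 0 := hf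
    subst h1
    exact PolLT.zero 1
  | succ d ih =>
    intro u
    exact ih (hf u)

theorem PolLT.mono {d e : ℕ} (hde : d ≤ e) {f : G → M} (hf : PolLT d f) : PolLT e f := by
  induction hde with
  | refl => exact hf
  | step _ ih => exact ih.succ

theorem PolLT.const (c : M) : PolLT 1 (fun _ : G => c) := by
  intro u
  funext x
  simp

theorem PolLT.left (u : G) {d : ℕ} {f : G → M} (hf : PolLT d f) :
    PolLT d (fun x => f (u * x)) := by
  cases d with
  | zero =>
    have h1 : f = 0 := hf
    subst h1
    exact PolLT.zero 0
  | succ d =>
    have := (hf u).succ.add hf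
    simpa using this

theorem PolLT.right (u : G) {d : ℕ} {f : G → M} (hf : PolLT d f) :
    PolLT d (fun x => f (x * u)) := by
  induction d generalizing f with
  | zero =>
    have h1 : f = 0 := hf
    subst h1
    exact PolLT.zero 0
  | succ d ih =>
    intro v
    have := ih (hf v)
    simpa [mul_assoc] using this

theorem PolLT.of_hom {f : G → M} (h : ∀ x y, f (x * y) = f x + f y) : PolLT 2 f := by
  intro u
  have : (fun x => f (u * x) - f x) = fun _ => f u := by
    funext x
    rw [h]
    abel
  rw [this]
  exact PolLT.const _

section ring
variable {A : Type*} [Ring A]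

theorem PolLT.mul {f g : G → A} : ∀ (s a b : ℕ), a + b ≤ s → PolLT a f → PolLT b g →
    PolLT (a + b - 1) (fun x => f x * g x) := by
  intro s
  induction s generalizing f g with
  | zero =>
    intro a b hab hf hg
    have ha : a = 0 := by omega
    subst ha
    have h1 : f = 0 := hf
    subst h1
    simpa using PolLT.zero (b-1)
  | succ s ih =>
    intro a b hab hf hg
    rcases a with _ | a
    · have h1 : f = 0 := hf
      subst h1
      simpa using PolLT.zero (b-1)
    rcases b with _ | b
    · have h1 : g = 0 := hg
      subst h1
      simpa using PolLT.zero a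
    have e : a + 1 + (b + 1) - 1 = (a + b) + 1 := by omega
    rw [e]
    intro u
    have h1 : PolLT (a + b) (fun x => (f (u * x) - f x) * g (u * x)) := by
      have := ih (f := fun x => f (u * x) - f x) (g := fun x => g (u * x)) a (b+1) (by omega)
        (hf u) (hg.left u)
      simpa using this
    have h2 : PolLT (a + b) (fun x => f x * (g (u * x) - g x)) := by
      have := ih (f := f) (g := fun x => g (u * x) - g x) (a+1) b (by omega) hf (hg u)
      have e : a + 1 + b - 1 = a + b := by omega
      rwa [e] at this
    have := h1.add h2
    convert this using 2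
    noncomm_ring

theorem PolLT.mul_succ {a b : ℕ} {f g : G → A} (hf : PolLT (a+1) f) (hg : PolLT (b+1) g) :
    PolLT (a + b + 1) (fun x => f x * g x) := by
  have := PolLT.mul (f := f) (g := g) (a+1+(b+1)) (a+1) (b+1) le_rfl hf hg
  have e : a + 1 + (b + 1) - 1 = a + b + 1 := by omega
  rwa [e] at this

theorem PolLT.pow {a : ℕ} {f : G → A} (hf : PolLT (a+1) f) (k : ℕ) :
    PolLT (k * a + 1) (fun x => f x ^ k) := by
  induction k with
  | zero => simpa using PolLT.const (1 : A)
  | succ k ih =>
    have := ih.mul_succ hf
    have e : k * a + a + 1 = (k+1) * a + 1 := by ring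
    rw [e] at this
    simpa [pow_succ] using this

/-- A unipotent representation is a polynomial map. -/
theorem polLT_rep (π : G →* A) : ∀ (d : ℕ) (T : A),
    (∀ l : List G, l.length = d → T * (l.map fun u => π u - 1).prod = 0) →
    PolLT d (fun z => T * π z) := by
  intro d
  induction d with
  | zero =>
    intro T h
    have : T = 0 := by simpa using h [] rfl
    subst this
    simpa using PolLT.zero 0
  | succ d ih =>
    intro T h u
    have := ih (T * (π u - 1)) (by
      intro l hl
      have := h (u :: l) (by simp [hl])
      simpa [mul_assoc] using this)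
    convert this using 2
    simp only [map_mul]
    noncomm_ring

end ring

end TH575.Cov
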