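import Pool.Agent.TH575.CovStep

namespace TH575.Cov

/-- Bounded degree polynomial functions separate points from `1`, uniformly in large `p`. -/
def Sep (n : ℕ) : Prop := ∃ D p₀ : ℕ, ∀ p : ℕ, p.Prime → p₀ ≤ p → ∀ (P : Type) [Group P],
  Nat.card P = p ^ n → ∀ y : P, y ≠ 1 → ∃ f : P → ZMod (p ^ n), PolLT D f ∧ f y ≠ f 1

theorem sep_zero : Sep 0 := by
  refine ⟨0, 0, ?_⟩
  intro p _ _ P _ h y hy
  rw [pow_zero, Nat.card_eq_one_iff_unique] at h
  obtain ⟨h1, _⟩ := h
  exact absurd (Subsingleton.elim _ _) hy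

theorem exists_normal {p n : ℕ} (hp : p.Prime) {P : Type} [Group P]
    (hP : Nat.card P = p ^ (n+1)) : ∃ H : Subgroup P, H.Normal ∧ Nat.card H = p ^ n ∧ H.index = p := by
  have : Fact p.Prime := ⟨hp⟩
  have hfin : Finite P := Nat.finite_of_card_ne_zero (by rw [hP]; exact pow_ne_zero _ hp.ne_zero)
  obtain ⟨H, hH⟩ := Sylow.exists_subgroup_card_pow_prime p (G := P) (n := n)
    (by rw [hP]; exact pow_dvd_pow p (Nat.le_succ n))
  have hidx : H.index = p := by
    have := H.card_mul_index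
    rw [hH, hP, pow_succ] at this
    exact Nat.eq_of_mul_eq_mul_left (pow_pos hp.pos n) this
  refine ⟨H, ?_, hH, hidx⟩
  apply Subgroup.normal_of_index_eq_minFac_card
  rw [hidx, hP, hp.pow_minFac (Nat.succ_ne_zero n)]

/-- multiplication by `p` as map `ZMod (p^n) → ZMod (p^(n+1))`. -/
def iota (p n : ℕ) : ZMod (p ^ n) →+ ZMod (p ^ (n+1)) :=
  ZMod.lift (p ^ n) ⟨zmultiplesHom (ZMod (p ^ (n+1))) (p : ZMod (p ^ (n+1))), by
    simp only [zmultiplesHom_apply, natCast_zsmul, nsmul_eq_mul]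
    rw [← Nat.cast_mul, ZMod.natCast_eq_zero_iff, pow_succ]⟩

theorem iota_coe (p n : ℕ) (k : ℤ) : iota p n (k : ZMod (p ^ n)) = k • (p : ZMod (p ^ (n+1))) := by
  simp [iota]

theorem iota_inj {p n : ℕ} (hp : p.Prime) : Function.Injective (iota p n) := by
  rw [iota, ZMod.lift_injective]
  intro m hm
  simp only [zmultiplesHom_apply, zsmul_eq_mul] at hm
  have h1 : ((m * p : ℤ) : ZMod (p ^ (n+1))) = 0 := by push_cast; exact hm
  rw [ZMod.intCast_zmod_eq_zero_iff_dvd] at h1 ⊢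
  push_cast at h1 ⊢
  rw [pow_succ] at h1
  exact (mul_dvd_mul_iff_right (by exact_mod_cast hp.ne_zero)).1 h1

theorem sep_succ (n : ℕ) (h : Sep n) : Sep (n+1) := by
  obtain ⟨D, p₀, hS⟩ := h
  set B := n * eNum n D with hB
  set m := 2 * B + 1 with hm
  refine ⟨m * B + 2, max p₀ (m + 1), ?_⟩
  intro p hp hpp P _ hP y hy
  have hpp0 : p₀ ≤ p := le_trans (le_max_left _ _) hpp
  have hpm : m < p := lt_of_lt_of_le (Nat.lt_succ_self m) (le_trans (le_max_right _ _) hpp)
  have hpF : Fact p.Prime := ⟨hp⟩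
  have hfin : Finite P := Nat.finite_of_card_ne_zero (by rw [hP]; exact pow_ne_zero _ hp.ne_zero)
  obtain ⟨H, hHn, hH, hidx⟩ := exists_normal hp hP
  -- the generator `g`
  have hne : H ≠ ⊤ := by
    intro h
    rw [h, Subgroup.index_top] at hidx
    exact hp.one_lt.ne hidx
  obtain ⟨g, hg⟩ : ∃ g, g ∉ H := by
    by_contra hcon
    push Not at hcon
    exact hne (eq_top_iff.2 fun a _ => hcon a)
  have hcardq : Nat.card (P ⧸ H) = p := hidx
  have hgq : (QuotientGroup.mk g : P ⧸ H) ≠ 1 := by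
    rw [Ne, QuotientGroup.eq_one_iff]
    exact hg
  have hord : orderOf (QuotientGroup.mk g : P ⧸ H) = p := by
    apply orderOf_eq_prime _ hgq
    rw [← hcardq]
    exact pow_card_eq_one'
  have hgp : ∀ i : ℤ, g ^ i ∈ H ↔ (p : ℤ) ∣ i := by
    intro i
    rw [← hord, orderOf_dvd_iff_zpow_eq_one, ← QuotientGroup.eq_one_iff]
    rfl
  have hgen : ∀ y : P, ∃ i : ℤ, (g ^ i)⁻¹ * y ∈ H := by
    intro y
    have := mem_zpowers_of_prime_card hcardq hgq (g' := (QuotientGroup.mk y : P ⧸ H))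
    obtain ⟨i, hi⟩ := this
    refine ⟨i, ?_⟩
    rw [← QuotientGroup.eq]
    rw [← hi]
    rfl
  -- the interpolation data
  obtain ⟨M⟩ := exists_Mu (R := ZMod (p ^ n)) m (by
    intro k hk1 hk2
    rw [ZMod.isUnit_iff_coprime]
    apply Nat.Coprime.pow_right
    exact (Nat.coprime_of_lt_prime (by omega) (by omega) hp).symm)
  have hRfin : Finite (ZMod (p ^ n)) := by
    have : NeZero (p ^ n) := ⟨pow_ne_zero _ hp.ne_zero⟩
    infer_instance
  have hRcard : Nat.card (ZMod (p ^ n)) = p ^ n := Nat.card_zmod _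
  -- the module of polynomial functions
  set W := polMod (ZMod (p ^ n)) H D with hW
  have hWfin : Finite W := inferInstance
  have hWle : Nat.card W ≤ p ^ (B + 1) := by
    obtain ⟨x, hx⟩ := exists_gens (p := p) hH
    have h1 := card_polMod_le (R := ZMod (p ^ n)) x hx D
    rw [hRcard, ← pow_mul] at h1
    exact h1.trans (Nat.pow_le_pow_right hp.pos (Nat.le_succ _))
  have hWpow : ∃ c, Nat.card W = p ^ c := by
    have h1 : Nat.card W ∣ Nat.card (H → ZMod (p ^ n)) :=
      AddSubgroup.card_addSubgroup_dvd_card W.toAddSubgroup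
    rw [Nat.card_fun, hRcard, ← pow_mul] at h1
    obtain ⟨j, _, hj⟩ := (Nat.dvd_prime_pow hp).1 h1
    exact ⟨j, hj⟩
  have hPg : IsPGroup p (QQ H) := by
    have h1 : IsPGroup p (P × P) := by
      apply IsPGroup.of_card (n := (n+1) + (n+1))
      rw [Nat.card_prod, hP, ← pow_add]
    exact h1.to_subgroup _
  have hprod := rep_prod_zero hPg W hWpow (rep H (ZMod (p ^ n)) D) (B+1) hWle
  have hpow : ∀ z : QQ H, (rep H (ZMod (p ^ n)) D z - 1) ^ (B+1) = 0 := by
    intro z
    have := hprod (List.replicate (B+1) z) (by simp)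
    simpa using this
  let Λ : W → QQ H → ZMod (p ^ n) := fun f z => ((M.lg (rep H (ZMod (p ^ n)) D z)) f).1 1
  have hΛadd : ∀ f, ∀ z w : QQ H, Commute z w → Λ f (z * w) = Λ f z + Λ f w := by
    intro f z w hzw
    simp only [Λ]
    rw [map_mul, M.lg_mul _ _ (hzw.map _) B (hpow z) (hpow w) (by omega)]
    rfl
  have hΛpol : ∀ f, PolLT (m * B + 2) (Λ f) := by
    intro f
    have h1 : PolLT (B+1) (fun z => rep H (ZMod (p ^ n)) D z) := by
      have := polLT_rep (rep H (ZMod (p ^ n)) D) (B+1) (1 : Module.End (ZMod (p ^ n)) W) (by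
        intro l hl
        rw [one_mul]
        exact hprod l hl)
      simpa using this
    have h2 : PolLT (m * B + 2) (fun z => M.lg (rep H (ZMod (p ^ n)) D z)) := by
      unfold Mu.lg
      apply PolLT.sum
      intro k hk
      have hk' : k ≤ m := by
        have := Finset.mem_range.1 hk
        omega
      have h3 := (h1.pow k).comp_addHom
        (DistribSMul.toAddMonoidHom (Module.End (ZMod (p ^ n)) W) (M.μ k))
      refine PolLT.mono ?_ h3
      have : k * B ≤ m * B := Nat.mul_le_mul_right B hk'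
      omega
    let ev : Module.End (ZMod (p ^ n)) W →+ ZMod (p ^ n) :=
      { toFun := fun T => (T f).1 1
        map_zero' := rfl
        map_add' := fun _ _ => rfl }
    exact h2.comp_addHom ev
  have hw : (g ^ (p : ℤ), (1 : P)) ∈ QQ H := by
    rw [mem_QQ, mul_one]
    exact H.inv_mem ((hgp _).2 dvd_rfl)
  -- the descended functions
  have hdesc : ∀ (f : W) (a : ZMod (p ^ (n+1))), iota p n (Λ f ⟨(g ^ (p : ℤ), 1), hw⟩) + (p : ℤ) • a = 0 →
      ∃ F : P → ZMod (p ^ (n+1)), PolLT (m * B + 2) F ∧ ∀ (y : P) (i : ℤ) (h : (g ^ i, y) ∈ QQ H),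
        F y = iota p n (Λ f ⟨(g ^ i, y), h⟩) + i • a := by
    intro f a ha
    exact descend H g hgp hgen (Λ f) (hΛpol f) (hΛadd f) (by omega) (iota p n) a hw ha
  have h11 : (g ^ (0:ℤ), (1:P)) ∈ QQ H := by
    rw [mem_QQ]; simp [H.one_mem]
  have hΛ1 : ∀ f, ∀ h : (g ^ (0:ℤ), (1:P)) ∈ QQ H, Λ f ⟨(g ^ (0:ℤ), 1), h⟩ = 0 := by
    intro f h
    have e : (⟨(g ^ (0:ℤ), 1), h⟩ : QQ H) = 1 := by
      apply Subtype.ext
      simp
    rw [e]
    have := hΛadd f 1 1 (Commute.one_left 1)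
    rw [mul_one] at this
    simpa using this
  by_cases hyH : y ∈ H
  · -- the interesting case
    obtain ⟨f₀, hf₀, hf₀y⟩ := hS p hp hpp0 H hH ⟨y, hyH⟩ (by
      intro h
      exact hy (congrArg Subtype.val h))
    have h1y : ((1:P), y) ∈ QQ H := by rw [mem_QQ]; simpa using hyH
    set zy : QQ H := ⟨((1:P), y), h1y⟩ with hzy
    have hUne : rep H (ZMod (p ^ n)) D zy ≠ 1 := by
      intro h
      apply hf₀y
      have h2 := congrArg (fun T : Module.End (ZMod (p ^ n)) W => (T ⟨f₀, hf₀⟩).1 1) h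
      have h3 : tau H zy 1 = ⟨y, hyH⟩ := by
        apply Subtype.ext
        simp [tau, hzy]
      have h4 : f₀ (tau H zy 1) = f₀ 1 := h2
      rw [h3] at h4
      exact h4
    have hlg : M.lg (rep H (ZMod (p ^ n)) D zy) ≠ 0 := by
      intro h
      exact hUne (M.eq_one_of_lg_eq_zero (by omega) _ (B+1) (hpow _) h)
    obtain ⟨f', hf'⟩ : ∃ f' : W, M.lg (rep H (ZMod (p ^ n)) D zy) f' ≠ 0 := by
      by_contra hcon
      push Not at hcon
      exact hlg (LinearMap.ext hcon)
    obtain ⟨x', hx'⟩ : ∃ x' : H, (M.lg (rep H (ZMod (p ^ n)) D zy) f').1 x' ≠ 0 := by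
      by_contra hcon
      push Not at hcon
      exact hf' (Subtype.ext (funext hcon))
    have hv : ((x' : P)⁻¹, (1:P)) ∈ QQ H := by
      rw [mem_QQ]; simp
    set zv : QQ H := ⟨((x' : P)⁻¹, (1:P)), hv⟩ with hzv
    have hcomm : Commute zy zv := by
      apply Subtype.ext
      simp [hzy, hzv]
    have hcomm2 : Commute (M.lg (rep H (ZMod (p ^ n)) D zy)) (rep H (ZMod (p ^ n)) D zv) := by
      unfold Mu.lg
      apply Commute.sum_left
      intro k _
      exact (((hcomm.map (rep H (ZMod (p ^ n)) D)).pow_left k)).smul_left _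
    set f'' : W := rep H (ZMod (p ^ n)) D zv f' with hf''
    have hΛne : Λ f'' zy ≠ 0 := by
      have e1 : M.lg (rep H (ZMod (p ^ n)) D zy) f'' =
          rep H (ZMod (p ^ n)) D zv (M.lg (rep H (ZMod (p ^ n)) D zy) f') := by
        rw [hf'']
        exact congrArg (fun T : Module.End (ZMod (p ^ n)) W => T f') hcomm2.eq
      have e2 : tau H zv 1 = x' := by
        apply Subtype.ext
        simp [tau, hzv]
      have e3 : Λ f'' zy = (M.lg (rep H (ZMod (p ^ n)) D zy) f').1 (tau H zv 1) := by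
        simp only [Λ]
        rw [e1]
        rfl
      rw [e3, e2]
      exact hx'
    -- choose `a`
    obtain ⟨k, hk⟩ := ZMod.intCast_surjective (Λ f'' ⟨(g ^ (p : ℤ), 1), hw⟩)
    obtain ⟨F, hFpol, hF⟩ := hdesc f'' (-(k : ZMod (p ^ (n+1)))) (by
      rw [← hk, iota_coe]
      simp only [zsmul_eq_mul, Int.cast_natCast]
      ring)
    refine ⟨F, hFpol, ?_⟩
    have h1 : F 1 = 0 := by
      rw [hF 1 0 h11, hΛ1 f'' h11]
      simp
    have h0y : (g ^ (0:ℤ), y) ∈ QQ H := by rw [mem_QQ]; simpa using hyH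
    have h2 : F y = iota p n (Λ f'' zy) := by
      rw [hF y 0 h0y]
      have e : (⟨(g ^ (0:ℤ), y), h0y⟩ : QQ H) = zy := by
        apply Subtype.ext
        simp [hzy]
      rw [e]
      simp
    rw [h1, h2]
    intro h
    apply hΛne
    apply iota_inj hp
    rw [h, map_zero]
  · -- the easy case
    obtain ⟨F, hFpol, hF⟩ := hdesc 0 ((p ^ n : ℕ) : ZMod (p ^ (n+1))) (by
      have h1 : Λ 0 ⟨(g ^ (p : ℤ), 1), hw⟩ = 0 := by
        simp only [Λ, map_zero]
        rfl
      rw [h1, map_zero, zero_add]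
      simp only [natCast_zsmul, nsmul_eq_mul]
      rw [← Nat.cast_mul, ZMod.natCast_eq_zero_iff, pow_succ, mul_comm])
    refine ⟨F, hFpol, ?_⟩
    obtain ⟨i, hi⟩ := hgen y
    have hiy : (g ^ i, y) ∈ QQ H := hi
    have h0 : ∀ z, Λ 0 z = 0 := by
      intro z
      simp only [Λ, map_zero]
      rfl
    have h1 : F 1 = 0 := by
      rw [hF 1 0 h11, h0]
      simp
    have h2 : F y = i • ((p ^ n : ℕ) : ZMod (p ^ (n+1))) := by
      rw [hF y i hiy, h0]
      simp
    rw [h1, h2]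
    intro h
    have h3 : ((i * (p ^ n : ℕ) : ℤ) : ZMod (p ^ (n+1))) = 0 := by
      rw [zsmul_eq_mul] at h
      push_cast at h ⊢
      exact h
    rw [ZMod.intCast_zmod_eq_zero_iff_dvd] at h3
    have h4 : (p : ℤ) ∣ i := by
      rw [pow_succ'] at h3
      push_cast at h3
      exact (mul_dvd_mul_iff_right (pow_ne_zero n (by exact_mod_cast hp.ne_zero))).1 h3
    have h5 : g ^ i ∈ H := (hgp i).2 h4
    apply hyH
    have := H.mul_mem h5 hi
    simpa using this

theorem sep_all (n : ℕ) : Sep n := by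
  induction n with
  | zero => exact sep_zero
  | succ n ih => exact sep_succ n ih

end TH575.Cov
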