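import Pool.Agent.TH575.CovCount
import Pool.Agent.TH575.CovMu

namespace TH575.Cov

theorem rep_prod_zero {p : ℕ} [hp : Fact p.Prime] {Γ : Type*} [Group Γ] [Finite Γ]
    (hΓ : IsPGroup p Γ) {R : Type} [CommRing R] (W : Type) [AddCommGroup W] [Module R W]
    [Finite W] (hW : ∃ c, Nat.card W = p ^ c) (π : Γ →* Module.End R W) (B : ℕ)
    (hB : Nat.card W ≤ p ^ B) :
    ∀ l : List Γ, l.length = B → (l.map fun u => π u - 1).prod = 0 := by
  intro l hl
  let _ : DistribMulAction Γ W := DistribMulAction.compHom W π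
  have h2 : ∀ (w : W) (l' : List Γ), (l'.map fun u => π u - 1).prod w =
      l'.foldr (fun g w => g • w - w) w := by
    intro w l'
    induction l' with
    | nil => rfl
    | cons a l' ih =>
      simp only [List.map_cons, List.prod_cons, List.foldr_cons]
      rw [← ih]
      rfl
  apply LinearMap.ext
  intro w
  have h := unip hΓ l W hW (by rw [hl]; exact hB) w
  rw [h2, h]
  rfl

section step

variable {P : Type} [Group P] (H : Subgroup P) [hHn : H.Normal]

/-- pairs `(u,y)` with `u⁻¹ y ∈ H`. -/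
def QQ : Subgroup (P × P) where
  carrier := {z | z.1⁻¹ * z.2 ∈ H}
  one_mem' := by simp
  mul_mem' := by
    intro a b ha hb
    have h1 : b.1⁻¹ * (a.1⁻¹ * a.2) * b.1⁻¹⁻¹ ∈ H := hHn.conj_mem _ ha _
    have h2 := H.mul_mem h1 hb
    have h3 : (a * b).1⁻¹ * (a * b).2 = (b.1⁻¹ * (a.1⁻¹ * a.2) * b.1⁻¹⁻¹) * (b.1⁻¹ * b.2) := by
      simp [mul_assoc]
    change (a * b).1⁻¹ * (a * b).2 ∈ H
    rw [h3]
    exact h2
  inv_mem' := by
    intro a ha
    have h1 : a.1 * (a.1⁻¹ * a.2)⁻¹ * a.1⁻¹ ∈ H := hHn.conj_mem _ (H.inv_mem ha) _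
    have h3 : (a⁻¹).1⁻¹ * (a⁻¹).2 = a.1 * (a.1⁻¹ * a.2)⁻¹ * a.1⁻¹ := by
      simp [mul_assoc]
    change (a⁻¹).1⁻¹ * (a⁻¹).2 ∈ H
    rw [h3]
    exact h1

theorem mem_QQ {z : P × P} : z ∈ QQ H ↔ z.1⁻¹ * z.2 ∈ H := Iff.rfl

theorem tau_mem (z : QQ H) (x : H) : z.1.1⁻¹ * (x : P) * z.1.2 ∈ H := by
  have h1 : z.1.1⁻¹ * (x : P) * z.1.1⁻¹⁻¹ ∈ H := hHn.conj_mem _ x.2 _
  have h2 := H.mul_mem h1 z.2
  have h3 : (z.1.1⁻¹ * (x : P) * z.1.1⁻¹⁻¹) * (z.1.1⁻¹ * z.1.2) = z.1.1⁻¹ * (x : P) * z.1.2 := by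
    simp [mul_assoc]
  rwa [h3] at h2

/-- the action of `(u,y)` on `H`: `x ↦ u⁻¹ x y`. -/
def tau (z : QQ H) (x : H) : H := ⟨z.1.1⁻¹ * x * z.1.2, tau_mem H z x⟩

theorem polLT_tau {M : Type*} [AddCommGroup M] {d : ℕ} {f : H → M} (hf : PolLT d f) (z : QQ H) :
    PolLT d (fun x => f (tau H z x)) := by
  have h1 := (PolLT.right (⟨z.1.1⁻¹ * z.1.2, z.2⟩ : H) hf).comp_hom
    ((MulAut.conjNormal (z.1.1⁻¹) : MulAut H).toMonoidHom)
  convert h1 using 2
  congr 1
  apply Subtype.ext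
  simp [tau, mul_assoc]

/-- The representation of `QQ H` on polynomial functions on `H`. -/
def rep (R : Type) [CommRing R] (D : ℕ) : QQ H →* Module.End R (polMod R H D) where
  toFun z :=
    { toFun := fun f => ⟨fun x => f.1 (tau H z x), polLT_tau H f.2 z⟩
      map_add' := fun _ _ => rfl
      map_smul' := fun _ _ => rfl }
  map_one' := by
    apply LinearMap.ext
    intro f
    apply Subtype.ext
    funext x
    have h : tau H 1 x = x := by
      apply Subtype.ext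
      simp [tau]
    change f.1 (tau H 1 x) = f.1 x
    rw [h]
  map_mul' := by
    intro z z'
    apply LinearMap.ext
    intro f
    apply Subtype.ext
    funext x
    have h : tau H (z * z') x = tau H z' (tau H z x) := by
      apply Subtype.ext
      simp [tau, mul_assoc]
    change f.1 (tau H (z * z') x) = f.1 (tau H z' (tau H z x))
    rw [h]

theorem descend {R R' : Type} [AddCommGroup R] [AddCommGroup R'] {E p : ℕ} (g : P)
    (hgp : ∀ i : ℤ, g ^ i ∈ H ↔ (p : ℤ) ∣ i) (hgen : ∀ y : P, ∃ i : ℤ, (g ^ i)⁻¹ * y ∈ H)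
    (Λ : QQ H → R) (hpol : PolLT E Λ) (hΛ : ∀ z w : QQ H, Commute z w → Λ (z * w) = Λ z + Λ w)
    (hE : 2 ≤ E) (ι : R →+ R') (a : R') (hw : (g ^ (p : ℤ), (1 : P)) ∈ QQ H)
    (ha : ι (Λ ⟨(g ^ (p : ℤ), 1), hw⟩) + (p : ℤ) • a = 0) :
    ∃ F : P → R', PolLT E F ∧ ∀ (y : P) (i : ℤ) (h : (g ^ i, y) ∈ QQ H),
      F y = ι (Λ ⟨(g ^ i, y), h⟩) + i • a := by
  let ψ : P × Multiplicative ℤ →* P × P :=
    ((zpowersHom P g).comp (MonoidHom.snd P (Multiplicative ℤ))).prod
      (MonoidHom.fst P (Multiplicative ℤ))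
  have hψ : ∀ (y : P) (i : Multiplicative ℤ), ψ (y, i) = (g ^ (Multiplicative.toAdd i), y) := by
    intro y i
    simp [ψ, zpowersHom_apply]
  let Ph : Subgroup (P × Multiplicative ℤ) := (QQ H).comap ψ
  let κ : Ph →* QQ H := ψ.subgroupComap (QQ H)
  have hκ : ∀ t : Ph, ((κ t : QQ H) : P × P) = ψ t.1 := fun t => rfl
  let proj : Ph →* P := (MonoidHom.fst P (Multiplicative ℤ)).comp Ph.subtype
  have hproj : ∀ t : Ph, proj t = t.1.1 := fun t => rfl
  have hsurj : Function.Surjective proj := by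
    intro y
    obtain ⟨i, hi⟩ := hgen y
    refine ⟨⟨(y, Multiplicative.ofAdd i), ?_⟩, rfl⟩
    change ψ (y, Multiplicative.ofAdd i) ∈ QQ H
    rw [hψ, mem_QQ]
    exact hi
  have hwk : ∀ k : ℤ, ((1 : P), Multiplicative.ofAdd ((p : ℤ) * k)) ∈ Ph := by
    intro k
    change ψ _ ∈ QQ H
    rw [hψ, mem_QQ]
    simp only [toAdd_ofAdd, mul_one]
    apply H.inv_mem
    rw [hgp]
    exact dvd_mul_right _ _
  let w : ℤ → Ph := fun k => ⟨((1 : P), Multiplicative.ofAdd ((p : ℤ) * k)), hwk k⟩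
  have hwadd : ∀ k l, w (k + l) = w k * w l := by
    intro k l
    apply Subtype.ext
    apply Prod.ext
    · simp [w]
    · change Multiplicative.ofAdd ((p : ℤ) * (k + l)) = Multiplicative.ofAdd ((p : ℤ) * k) * Multiplicative.ofAdd ((p : ℤ) * l)
      rw [← ofAdd_add, mul_add]
  have hcomm : ∀ (t : Ph) (k : ℤ), Commute (κ t) (κ (w k)) := by
    intro t k
    apply Subtype.ext
    rw [Subgroup.coe_mul, Subgroup.coe_mul, hκ, hκ]
    obtain ⟨⟨y, i⟩, ht⟩ := t
    simp only [w, hψ, Prod.mk_mul_mk, mul_one, one_mul, toAdd_ofAdd]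
    rw [← zpow_add, ← zpow_add, add_comm]
  let θ : ℤ →+ R := AddMonoidHom.mk' (fun k => Λ (κ (w k))) (by
    intro k l
    rw [hwadd, map_mul]
    exact hΛ _ _ (hcomm _ _))
  have hθ : ∀ k, Λ (κ (w k)) = k • Λ (κ (w 1)) := by
    intro k
    have h1 : θ k = k • θ 1 := by
      rw [← map_zsmul]; simp
    exact h1
  have hw1 : κ (w 1) = ⟨(g ^ (p : ℤ), 1), hw⟩ := by
    apply Subtype.ext
    rw [hκ]
    simp [w, hψ]
  let F : Ph → R' := fun t => ι (Λ (κ t)) + (Multiplicative.toAdd t.1.2) • a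
  have hFper : ∀ t k, F (t * w k) = F t := by
    intro t k
    have h1 : Λ (κ (t * w k)) = Λ (κ t) + k • Λ (κ (w 1)) := by
      rw [map_mul, hΛ _ _ (hcomm _ _), hθ]
    have h2 : Multiplicative.toAdd (t * w k).1.2 = Multiplicative.toAdd t.1.2 + (p : ℤ) * k := rfl
    have h3 : k • (ι (Λ (κ (w 1))) + (p : ℤ) • a) = 0 := by
      rw [hw1, ha, smul_zero]
    simp only [F]
    rw [h1, h2, map_add, map_zsmul, add_smul, mul_comm, mul_smul]
    rw [smul_add] at h3
    calc ι (Λ (κ t)) + k • ι (Λ (κ (w 1))) + (Multiplicative.toAdd t.1.2 • a + k • (p : ℤ) • a)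
        = ι (Λ (κ t)) + Multiplicative.toAdd t.1.2 • a + (k • ι (Λ (κ (w 1))) + k • (p : ℤ) • a) := by abel
      _ = _ := by rw [h3, add_zero]
  have hFeq : ∀ t t' : Ph, proj t = proj t' → F t = F t' := by
    intro t t' h
    have h1 : (t : P × Multiplicative ℤ).1 = (t' : P × Multiplicative ℤ).1 := h
    have ht : (g ^ (Multiplicative.toAdd t.1.2))⁻¹ * t.1.1 ∈ H := by
      have := t.2
      change ψ t.1 ∈ QQ H at this
      rwa [← Prod.mk.eta (p := t.1), hψ, mem_QQ] at this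
    have ht' : (g ^ (Multiplicative.toAdd t'.1.2))⁻¹ * t'.1.1 ∈ H := by
      have := t'.2
      change ψ t'.1 ∈ QQ H at this
      rwa [← Prod.mk.eta (p := t'.1), hψ, mem_QQ] at this
    have h2 : g ^ (Multiplicative.toAdd t'.1.2 - Multiplicative.toAdd t.1.2) ∈ H := by
      have := H.mul_mem ht (H.inv_mem ht')
      rw [h1] at this
      have e : (g ^ (Multiplicative.toAdd t.1.2))⁻¹ * t'.1.1 * ((g ^ (Multiplicative.toAdd t'.1.2))⁻¹ * t'.1.1)⁻¹
          = g ^ (Multiplicative.toAdd t'.1.2 - Multiplicative.toAdd t.1.2) := by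
        simp only [mul_inv_rev, inv_inv, mul_assoc, mul_inv_cancel_left]
        rw [← zpow_neg, ← zpow_add]
        congr 1
        ring
      rwa [e] at this
    rw [hgp] at h2
    obtain ⟨k, hk⟩ := h2
    have h3 : t' = t * w k := by
      apply Subtype.ext
      apply Prod.ext
      · simp [w, h1]
      · change t'.1.2 = t.1.2 * Multiplicative.ofAdd ((p : ℤ) * k)
        apply Multiplicative.toAdd.injective
        rw [toAdd_mul, toAdd_ofAdd, ← hk]
        abel
    rw [h3, hFper]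
  have hFpol : PolLT E F := by
    have h1 : PolLT E (fun t : Ph => ι (Λ (κ t))) := (hpol.comp_hom κ).comp_addHom ι
    have h2 : PolLT E (fun t : Ph => (Multiplicative.toAdd t.1.2) • a) := by
      apply PolLT.mono hE
      apply PolLT.of_hom
      intro x y
      have : Multiplicative.toAdd (x * y).1.2 = Multiplicative.toAdd x.1.2 + Multiplicative.toAdd y.1.2 := rfl
      rw [this, add_smul]
    exact h1.add h2
  let s : P → Ph := Function.surjInv hsurj
  have hs : ∀ y, proj (s y) = y := Function.surjInv_eq hsurj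
  refine ⟨fun y => F (s y), ?_, ?_⟩
  · apply PolLT.of_comp_surj proj hsurj
    have : (fun x => F (s (proj x))) = F := by
      funext t
      exact hFeq _ _ (hs _)
    rw [this]
    exact hFpol
  · intro y i h
    have ht : (y, Multiplicative.ofAdd i) ∈ Ph := by
      change ψ _ ∈ QQ H
      rw [hψ]
      exact h
    have h1 : F (s y) = F ⟨(y, Multiplicative.ofAdd i), ht⟩ := hFeq _ _ (hs y)
    have h2 : κ ⟨(y, Multiplicative.ofAdd i), ht⟩ = ⟨(g ^ i, y), h⟩ := by
      apply Subtype.ext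
      rw [hκ, hψ]
      rfl
    change F (s y) = _
    rw [h1]
    simp only [F]
    rw [h2]
    rfl

end step

end TH575.Cov
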