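import Mathlib

/-! Volume of compact convex sets in `ℝ × ℝⁿ`: chords against projections. -/

set_option autoImplicit false

open MeasureTheory Set
open scoped Pointwise ENNReal

namespace Pool.Agent.TH575.TrCone

variable {n : ℕ}

theorem integral_aux (n : ℕ) (l : ℝ) (hl : 0 < l) :
    ∫⁻ s in Icc (0:ℝ) l, ENNReal.ofReal (|(1 - s / l) ^ n|) = ENNReal.ofReal (l / (n + 1)) := by
  have h1 : ∫⁻ s in Icc (0:ℝ) l, ENNReal.ofReal (|(1 - s / l) ^ n|) =
      ∫⁻ s in Icc (0:ℝ) l, ENNReal.ofReal ((1 - s / l) ^ n) := by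
    apply setLIntegral_congr_fun measurableSet_Icc
    intro s hs
    have : 0 ≤ 1 - s / l := by
      have := div_le_one_of_le₀ hs.2 hl.le
      linarith
    simp only
    rw [abs_of_nonneg (pow_nonneg this n)]
  rw [h1, ← ofReal_integral_eq_lintegral_ofReal]
  · congr 1
    rw [integral_Icc_eq_integral_Ioc, ← intervalIntegral.integral_of_le hl.le]
    rw [intervalIntegral.integral_comp_sub_div (fun x => x ^ n) hl.ne' 1]
    rw [div_self hl.ne', zero_div, sub_zero, sub_self, integral_pow]
    simp
    ring
  · apply Continuous.integrableOn_Icc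
    fun_prop
  · rw [Filter.EventuallyLE, ae_restrict_iff' measurableSet_Icc]
    apply Filter.Eventually.of_forall
    intro s hs
    have : 0 ≤ 1 - s / l := by
      have := div_le_one_of_le₀ hs.2 hl.le
      linarith
    exact pow_nonneg this n

theorem cone_bound (K : Set (ℝ × (Fin n → ℝ))) (hc : Convex ℝ K) (hK : IsCompact K)
    (t : ℝ) (y0 : Fin n → ℝ) (l : ℝ) (hl : 0 ≤ l) (h1 : (t, y0) ∈ K) (h2 : (t + l, y0) ∈ K) :
    ENNReal.ofReal (l / (n + 1)) * volume (Prod.snd '' K) ≤ volume K := by
  rcases hl.eq_or_lt with h0 | hl0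
  · rw [← h0]; simp
  set B := Prod.snd '' K with hB
  have hBc : IsCompact B := hK.image continuous_snd
  set φ : ℝ × (Fin n → ℝ) → ℝ × (Fin n → ℝ) := fun q => (q.1, y0 + (1 - q.1 / l) • (q.2 - y0))
    with hφ
  have hφc : Continuous φ := by fun_prop
  set U := φ '' (Icc 0 l ×ˢ B) with hU
  have hUc : IsCompact U := (isCompact_Icc.prod hBc).image hφc
  have e1 : volume U = ENNReal.ofReal (l / (n + 1)) * volume B := by
    rw [Measure.volume_eq_prod, Measure.prod_apply hUc.measurableSet]
    have e2 : ∀ s : ℝ, volume (Prod.mk s ⁻¹' U) =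
        (Icc (0:ℝ) l).indicator (fun s => ENNReal.ofReal (|(1 - s / l) ^ n|) * volume B) s := by
      intro s
      by_cases hs : s ∈ Icc (0:ℝ) l
      · rw [indicator_of_mem hs]
        have : Prod.mk s ⁻¹' U = AffineMap.homothety y0 (1 - s / l) '' B := by
          ext z
          simp only [mem_preimage, mem_image, AffineMap.homothety_apply, vsub_eq_sub, vadd_eq_add,
            hU, hφ, Prod.exists, Prod.mk.injEq, mem_prod]
          constructor
          · rintro ⟨s', z', ⟨_, hz'⟩, rfl, rfl⟩
            exact ⟨z', hz', by rw [add_comm]⟩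
          · rintro ⟨z', hz', rfl⟩
            exact ⟨s, z', ⟨hs, hz'⟩, rfl, by rw [add_comm]⟩
        rw [this, Measure.addHaar_image_homothety]
        simp
      · rw [indicator_of_notMem hs]
        have : Prod.mk s ⁻¹' U = ∅ := by
          ext z
          simp only [mem_preimage, mem_image, hU, hφ, Prod.exists, Prod.mk.injEq, mem_prod,
            mem_empty_iff_false, iff_false]
          rintro ⟨s', z', ⟨hs', hz'⟩, rfl, rfl⟩
          exact hs hs'
        rw [this, measure_empty]
    rw [lintegral_congr e2, lintegral_indicator measurableSet_Icc, lintegral_mul_const _ (by fun_prop),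
      integral_aux n l hl0]
  rw [← e1]
  rw [Measure.volume_eq_prod, Measure.prod_apply_symm hUc.measurableSet,
    Measure.prod_apply_symm hK.measurableSet]
  apply lintegral_mono
  intro y
  set L := volume ((fun x => (x, y)) ⁻¹' K) with hL
  have hLfin : L ≠ ∞ := by
    have : IsCompact ((fun x => ((x, y) : ℝ × (Fin n → ℝ))) ⁻¹' K) := by
      have h : (fun x => ((x, y) : ℝ × (Fin n → ℝ))) ⁻¹' K ⊆ Prod.fst '' K := by
        intro x hx
        exact ⟨(x, y), hx, rfl⟩
      exact (hK.image continuous_fst).of_isClosed_subset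
        (hK.isClosed.preimage (by fun_prop)) h
    exact this.measure_lt_top.ne
  have key : ∀ s, (s, y) ∈ U → ENNReal.ofReal s ≤ L := by
    rintro s ⟨⟨s', z⟩, ⟨hs', hz⟩, heq⟩
    simp only [hφ, Prod.mk.injEq] at heq
    obtain ⟨rfl, rfl⟩ := heq
    obtain ⟨⟨w, z'⟩, hw, rfl⟩ := hz
    simp only at hs' hw ⊢
    set a := (1 - s' / l) * w + (s' / l) * t with ha
    have hsub : Icc a (a + s') ⊆ (fun x => ((x, y0 + (1 - s' / l) • (z' - y0)) : ℝ × (Fin n → ℝ))) ⁻¹' K := by
      intro x hx
      simp only [mem_preimage]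
      have hs0 : 0 ≤ s' / l := div_nonneg hs'.1 hl0.le
      have hs1 : s' / l ≤ 1 := div_le_one_of_le₀ hs'.2 hl0.le
      -- point on the chord
      by_cases hz : s' = 0
      · subst hz
        have hx' : x = w := by
          have h1 := hx.1; have h2 := hx.2
          simp [ha] at h1 h2
          linarith
        rw [hx']
        simp
        exact hw
      · have hs'0 : 0 < s' := lt_of_le_of_ne hs'.1 (Ne.symm hz)
        have hchord : (t + (x - a) * (l / s'), y0) ∈ K := by
          have hθ0 : 0 ≤ (x - a) / s' := div_nonneg (by linarith [hx.1]) hs'0.le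
          have hθ1 : (x - a) / s' ≤ 1 := div_le_one_of_le₀ (by linarith [hx.2]) hs'0.le
          have := hc h1 h2 (a := 1 - (x - a) / s') (b := (x - a) / s') (by linarith) hθ0 (by ring)
          convert this using 1
          ext i
          · simp
            field_simp
            ring
          · simp
            ring
        have := hc hw hchord (a := 1 - s' / l) (b := s' / l) (by linarith) hs0 (by ring)
        convert this using 1
        ext i
        · simp [ha]
          field_simp
          ring
        · simp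
          ring
    calc ENNReal.ofReal s' = volume (Icc a (a + s')) := by rw [Real.volume_Icc]; congr 1; ring
      _ ≤ _ := measure_mono hsub
  have hsub : (fun x => ((x, y) : ℝ × (Fin n → ℝ))) ⁻¹' U ⊆ Icc 0 L.toReal := by
    intro s hs
    have h3 := key s hs
    have hs0 : 0 ≤ s := by
      obtain ⟨⟨s', z⟩, ⟨hs', _⟩, heq⟩ := hs
      simp only [hφ, Prod.mk.injEq] at heq
      rw [← heq.1]; exact hs'.1
    refine ⟨hs0, ?_⟩
    exact (ENNReal.ofReal_le_iff_le_toReal hLfin).1 h3
  calc volume ((fun x => ((x, y) : ℝ × (Fin n → ℝ))) ⁻¹' U) ≤ volume (Icc 0 L.toReal) :=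
        measure_mono hsub
    _ = L := by rw [Real.volume_Icc, sub_zero, ENNReal.ofReal_toReal hLfin]

theorem slab (K : Set (ℝ × (Fin n → ℝ))) (hc : Convex ℝ K) (hK : IsCompact K)
    (l : ℝ) (hl : 0 ≤ l) :
    volume (K + (Icc 0 l ×ˢ ({0} : Set (Fin n → ℝ)))) =
      volume K + ENNReal.ofReal l * volume (Prod.snd '' K) := by
  have hBc : IsCompact (Prod.snd '' K) := hK.image continuous_snd
  have hSc : IsCompact (K + (Icc 0 l ×ˢ ({0} : Set (Fin n → ℝ)))) :=
    hK.add (isCompact_Icc.prod isCompact_singleton)
  rw [Measure.volume_eq_prod, Measure.prod_apply_symm hSc.measurableSet,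
    Measure.prod_apply_symm hK.measurableSet]
  have e : ∀ y, volume ((fun x => ((x, y) : ℝ × (Fin n → ℝ))) ⁻¹'
      (K + (Icc 0 l ×ˢ ({0} : Set (Fin n → ℝ))))) =
      volume ((fun x => ((x, y) : ℝ × (Fin n → ℝ))) ⁻¹' K) +
        (Prod.snd '' K).indicator (fun _ => ENNReal.ofReal l) y := by
    intro y
    have e1 : (fun x => ((x, y) : ℝ × (Fin n → ℝ))) ⁻¹' (K + (Icc 0 l ×ˢ ({0} : Set (Fin n → ℝ)))) =
        ((fun x => ((x, y) : ℝ × (Fin n → ℝ))) ⁻¹' K) + Icc 0 l := by
      ext x
      simp only [mem_preimage, mem_add, mem_prod, mem_singleton_iff, Prod.exists, Prod.mk_add_mk,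
        Prod.mk.injEq]
      constructor
      · rintro ⟨a, b, hab, s, z, ⟨hs, rfl⟩, hx, hy⟩
        refine ⟨a, ?_, s, hs, hx⟩
        rw [← hy, add_zero]; exact hab
      · rintro ⟨a, ha, s, hs, hx⟩
        exact ⟨a, y, ha, s, 0, ⟨hs, rfl⟩, hx, add_zero y⟩
    rw [e1]
    set F := (fun x => ((x, y) : ℝ × (Fin n → ℝ))) ⁻¹' K with hF
    have hFc : IsCompact F := by
      have h : F ⊆ Prod.fst '' K := by
        intro x hx
        exact ⟨(x, y), hx, rfl⟩
      exact (hK.image continuous_fst).of_isClosed_subset
        (hK.isClosed.preimage (by fun_prop)) h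
    have hFv : Convex ℝ F := by
      intro a ha b hb p q hp hq hpq
      have := hc ha hb hp hq hpq
      simp only [hF, mem_preimage]
      convert this using 1
      ext i
      · simp
      · simp only [Prod.smul_mk, Prod.mk_add_mk]
        rw [← add_smul, hpq, one_smul]
    by_cases hy : y ∈ Prod.snd '' K
    · rw [indicator_of_mem hy]
      have hne : F.Nonempty := by
        obtain ⟨⟨a, b⟩, hab, rfl⟩ := hy
        exact ⟨a, hab⟩
      have hconn : IsConnected F := ⟨hne, hFv.isPreconnected⟩
      have hI := eq_Icc_of_connected_compact hconn hFc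
      set a := sInf F
      set b := sSup F
      have hab : a ≤ b := by
        rw [hI] at hne
        exact nonempty_Icc.1 hne
      rw [hI, Set.Icc_add_Icc hab hl, Real.volume_Icc, Real.volume_Icc,
        ← ENNReal.ofReal_add (by linarith) hl]
      congr 1; ring
    · rw [indicator_of_notMem hy]
      have : F = ∅ := by
        rw [eq_empty_iff_forall_notMem]
        intro x hx
        exact hy ⟨(x, y), hx, rfl⟩
      rw [this]; simp
  rw [lintegral_congr e, lintegral_add_right _ (measurable_const.indicator hBc.measurableSet),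
    lintegral_indicator hBc.measurableSet]
  simp

end Pool.Agent.TH575.TrCone
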