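import Pool.Agent.TH575.TrCone

/-! Volume of convex bodies with chords in the coordinate directions, and of convex hulls of two
translates. -/

set_option autoImplicit false

open MeasureTheory Set
open scoped Pointwise ENNReal

namespace Pool.Agent.TH575.TrVol

/-- splitting off the first coordinate -/
def T (n : ℕ) : (Fin (n + 1) → ℝ) →L[ℝ] ℝ × (Fin n → ℝ) :=
  (ContinuousLinearMap.proj 0).prod (ContinuousLinearMap.pi fun j => ContinuousLinearMap.proj j.succ)

@[simp] theorem T_apply (n : ℕ) (f : Fin (n + 1) → ℝ) : T n f = (f 0, fun j => f j.succ) := rfl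

theorem T_vol (n : ℕ) (S : Set (Fin (n + 1) → ℝ)) : volume (T n '' S) = volume S := by
  have h := (volume_preserving_piFinSuccAbove (fun _ : Fin (n + 1) => ℝ) 0).measure_preimage_equiv
    (T n '' S)
  rw [← h]
  congr 1
  have he : ∀ f : Fin (n + 1) → ℝ,
      (MeasurableEquiv.piFinSuccAbove (fun _ : Fin (n + 1) => ℝ) 0) f = T n f := by
    intro f
    rfl
  have hinj : Function.Injective (T n) := by
    intro f g hfg
    rw [← he, ← he] at hfg
    exact (MeasurableEquiv.piFinSuccAbove (fun _ : Fin (n + 1) => ℝ) 0).injective hfg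
  ext f
  simp only [mem_preimage, he]
  exact hinj.mem_set_image

theorem chord_volume : ∀ (n : ℕ) (K : Set (Fin n → ℝ)), Convex ℝ K → IsCompact K → K.Nonempty →
    ∀ l : ℝ, 0 ≤ l → (∀ i, ∃ x ∈ K, x + Pi.single i l ∈ K) →
    ENNReal.ofReal (l ^ n / n.factorial) ≤ volume K := by
  intro n
  induction n with
  | zero =>
    intro K _ _ hne l _ _
    have : K = univ := by
      obtain ⟨x, hx⟩ := hne
      ext y
      simp only [mem_univ, iff_true]
      rwa [Subsingleton.elim y x]
    rw [this]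
    simp [volume_pi]
  | succ n ih =>
    intro K hc hK hne l hl hch
    have hc' : Convex ℝ (T n '' K) := hc.is_linear_image (T n).isBoundedLinearMap.toIsLinearMap
    have hK' : IsCompact (T n '' K) := hK.image (T n).continuous
    obtain ⟨x, hx, hx'⟩ := hch 0
    have h1 := TrCone.cone_bound (T n '' K) hc' hK' (x 0) (fun j => x j.succ) l hl
      ⟨x, hx, rfl⟩ ⟨_, hx', by simp⟩
    rw [T_vol] at h1
    have h2 := ih (Prod.snd '' (T n '' K)) (hc'.is_linear_image (LinearMap.snd ℝ ℝ (Fin n → ℝ)).isLinear)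
      (hK'.image continuous_snd) ((hne.image _).image _) l hl (by
        intro i
        obtain ⟨z, hz, hz'⟩ := hch i.succ
        refine ⟨fun j => z j.succ, ⟨_, ⟨z, hz, rfl⟩, rfl⟩, ⟨_, ⟨_, hz', rfl⟩, ?_⟩⟩
        ext j
        simp only [T_apply, Pi.add_apply]
        congr 1
        by_cases hij : j = i
        · subst hij; simp
        · rw [Pi.single_eq_of_ne hij, Pi.single_eq_of_ne (fun h => hij (Fin.succ_injective _ h))])
    refine le_trans ?_ (le_trans (mul_le_mul_right h2 _) h1)
    rw [← ENNReal.ofReal_mul (by positivity)]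
    apply le_of_eq
    congr 1
    rw [Nat.factorial_succ, pow_succ]
    push_cast
    field_simp

/-- the convex hull of a convex set and its translate is a Minkowski sum with a segment -/
theorem hull_eq {d : ℕ} (K : Set (Fin d → ℝ)) (hc : Convex ℝ K) (p : Fin d → ℝ) :
    convexHull ℝ (K ∪ (p +ᵥ K)) = K + segment ℝ 0 p := by
  apply Subset.antisymm
  · apply convexHull_min
    · rintro x (hx | ⟨y, hy, rfl⟩)
      · exact ⟨x, hx, 0, left_mem_segment _ _ _, add_zero x⟩
      · refine ⟨y, hy, p, right_mem_segment _ _ _, ?_⟩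
        simp [add_comm]
    · exact hc.add (convex_segment _ _)
  · rintro _ ⟨x, hx, _, ⟨a, b, ha, hb, hab, rfl⟩, rfl⟩
    have h1 : x ∈ convexHull ℝ (K ∪ (p +ᵥ K)) := subset_convexHull _ _ (Or.inl hx)
    have h2 : p + x ∈ convexHull ℝ (K ∪ (p +ᵥ K)) :=
      subset_convexHull _ _ (Or.inr ⟨x, hx, rfl⟩)
    have h3 := (convex_convexHull ℝ (K ∪ (p +ᵥ K))) h1 h2 ha hb hab
    convert h3 using 1
    have : x = (a + b) • x := by rw [hab, one_smul]
    simp only [smul_zero, zero_add, smul_add]
    conv_lhs => rw [this, add_smul]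
    abel

theorem T_segment (n : ℕ) (K : Set (Fin (n + 1) → ℝ)) (l : ℝ) (hl : 0 ≤ l) :
    T n '' (K + segment ℝ 0 (Pi.single 0 l)) =
      T n '' K + (Icc 0 l ×ˢ ({0} : Set (Fin n → ℝ))) := by
  rw [image_add]
  congr 1
  ext ⟨s, z⟩
  simp only [mem_image, mem_prod, mem_singleton_iff, T_apply]
  constructor
  · rintro ⟨_, ⟨a, b, ha, hb, hab, rfl⟩, hx⟩
    simp only [smul_zero, zero_add, Pi.smul_apply, Pi.single_eq_same, smul_eq_mul,
      Prod.mk.injEq] at hx
    obtain ⟨rfl, rfl⟩ := hx
    refine ⟨⟨by positivity, ?_⟩, ?_⟩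
    · nlinarith
    · ext j
      simp
  · rintro ⟨⟨h1, h2⟩, rfl⟩
    rcases hl.eq_or_lt with h0 | h0
    · refine ⟨0, left_mem_segment _ _ _, ?_⟩
      rw [← h0] at h2
      have : s = 0 := le_antisymm h2 h1
      rw [this]
      rfl
    · refine ⟨(s / l) • (Pi.single 0 l : Fin (n + 1) → ℝ), ⟨1 - s / l, s / l, ?_, ?_, by ring, ?_⟩, ?_⟩
      · have := div_le_one_of_le₀ h2 hl
        linarith
      · positivity
      · simp
      · simp only [Pi.smul_apply, Pi.single_eq_same, smul_eq_mul, Prod.mk.injEq]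
        refine ⟨by field_simp, ?_⟩
        ext j
        simp

/-- volume of the union hull in the direction of the first coordinate -/
theorem sum_volume (n : ℕ) (K : Set (Fin (n + 1) → ℝ)) (hc : Convex ℝ K) (hK : IsCompact K)
    (l : ℝ) (hl : 0 ≤ l) :
    volume (K + segment ℝ 0 (Pi.single 0 l)) =
      volume K + ENNReal.ofReal l * volume (Prod.snd '' (T n '' K)) := by
  have hc' : Convex ℝ (T n '' K) := hc.is_linear_image (T n).isBoundedLinearMap.toIsLinearMap
  have hK' : IsCompact (T n '' K) := hK.image (T n).continuous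
  rw [← T_vol, T_segment n K l hl, TrCone.slab _ hc' hK' l hl, T_vol]

theorem sum_upper0 (n : ℕ) (K : Set (Fin (n + 1) → ℝ)) (hc : Convex ℝ K) (hK : IsCompact K)
    (x : Fin (n + 1) → ℝ) (hx : x ∈ K) (l : ℝ) (hl : 0 ≤ l) (hx' : x + Pi.single 0 l ∈ K) :
    volume (K + segment ℝ 0 (Pi.single 0 l)) ≤ (n + 2 : ℕ) * volume K := by
  have hc' : Convex ℝ (T n '' K) := hc.is_linear_image (T n).isBoundedLinearMap.toIsLinearMap
  have hK' : IsCompact (T n '' K) := hK.image (T n).continuous
  have h1 := TrCone.cone_bound (T n '' K) hc' hK' (x 0) (fun j => x j.succ) l hl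
      ⟨x, hx, rfl⟩ ⟨_, hx', by simp⟩
  rw [T_vol] at h1
  rw [sum_volume n K hc hK l hl]
  have h2 : ENNReal.ofReal l * volume (Prod.snd '' (T n '' K)) ≤ (n + 1 : ℕ) * volume K := by
    calc ENNReal.ofReal l * volume (Prod.snd '' (T n '' K))
        = (n + 1 : ℕ) * (ENNReal.ofReal (l / (n + 1)) * volume (Prod.snd '' (T n '' K))) := by
          rw [← mul_assoc]
          congr 1
          rw [← ENNReal.ofReal_natCast, ← ENNReal.ofReal_mul (by positivity)]
          congr 1
          push_cast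
          field_simp
      _ ≤ _ := mul_le_mul_right h1 _
  calc volume K + ENNReal.ofReal l * volume (Prod.snd '' (T n '' K))
      ≤ volume K + (n + 1 : ℕ) * volume K := by gcongr
    _ = _ := by push_cast; ring

theorem sum_lower0 (n : ℕ) (K : Set (Fin (n + 1) → ℝ)) (hc : Convex ℝ K) (hK : IsCompact K)
    (hne : K.Nonempty) (l : ℝ) (hl : 0 ≤ l) (hch : ∀ i, ∃ x ∈ K, x + Pi.single i l ∈ K) :
    ENNReal.ofReal ((n + 2) * l ^ (n + 1) / (n + 1).factorial) ≤
      volume (K + segment ℝ 0 (Pi.single 0 l)) := by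
  have hc' : Convex ℝ (T n '' K) := hc.is_linear_image (T n).isBoundedLinearMap.toIsLinearMap
  have hK' : IsCompact (T n '' K) := hK.image (T n).continuous
  have h2 := chord_volume n (Prod.snd '' (T n '' K)) (hc'.is_linear_image (LinearMap.snd ℝ ℝ (Fin n → ℝ)).isLinear)
      (hK'.image continuous_snd) ((hne.image _).image _) l hl (by
        intro i
        obtain ⟨z, hz, hz'⟩ := hch i.succ
        refine ⟨fun j => z j.succ, ⟨_, ⟨z, hz, rfl⟩, rfl⟩, ⟨_, ⟨_, hz', rfl⟩, ?_⟩⟩
        ext j
        simp only [T_apply, Pi.add_apply]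
        congr 1
        by_cases hij : j = i
        · subst hij; simp
        · rw [Pi.single_eq_of_ne hij, Pi.single_eq_of_ne (fun h => hij (Fin.succ_injective _ h))])
  have h3 := chord_volume (n + 1) K hc hK hne l hl hch
  rw [sum_volume n K hc hK l hl]
  refine le_trans ?_ (add_le_add h3 (mul_le_mul_right h2 _))
  rw [← ENNReal.ofReal_mul hl, ← ENNReal.ofReal_add (by positivity) (by positivity)]
  apply le_of_eq
  congr 1
  rw [Nat.factorial_succ, pow_succ]
  push_cast
  field_simp
  ring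

/-- **Rogers and Shephard**: the convex hull of a convex body and of a translate meeting it -/
theorem sum_upper (n : ℕ) (K : Set (Fin (n + 1) → ℝ)) (hc : Convex ℝ K) (hK : IsCompact K)
    (a b : Fin (n + 1) → ℝ) (ha : a ∈ K) (hb : b ∈ K) :
    volume (K + segment ℝ 0 (b - a)) ≤ (n + 2 : ℕ) * volume K := by
  by_cases hp : b - a = 0
  · rw [hp, segment_same]
    have : K + {(0 : Fin (n + 1) → ℝ)} = K := add_zero K
    rw [this]
    calc volume K = 1 * volume K := (one_mul _).symm
      _ ≤ _ := by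
        gcongr
        have : (1 : ℕ) ≤ n + 2 := by omega
        exact_mod_cast this
  · have hs : (Pi.single 0 1 : Fin (n + 1) → ℝ) ≠ 0 := by
      intro h
      have := congrFun h 0
      simp at this
    obtain ⟨A, hA⟩ := SeparatingDual.exists_continuousLinearEquiv_apply_eq (R := ℝ) hp hs
    have hcA : Convex ℝ (A '' K) := hc.is_linear_image A.toContinuousLinearMap.isBoundedLinearMap.toIsLinearMap
    have hKA : IsCompact (A '' K) := hK.image A.continuous
    have himg : A '' (K + segment ℝ 0 (b - a)) = A '' K + segment ℝ 0 (Pi.single 0 1) := by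
      rw [image_add]
      congr 1
      have := image_segment ℝ A.toLinearEquiv.toLinearMap.toAffineMap 0 (b - a)
      simp only [LinearMap.coe_toAffineMap, LinearEquiv.coe_coe, map_zero] at this
      erw [this]
      congr 1
    have h1 := sum_upper0 n (A '' K) hcA hKA (A a) ⟨a, ha, rfl⟩ 1 zero_le_one (by
      rw [← hA, ← map_add]
      exact ⟨b, hb, by congr 1; abel⟩)
    rw [← himg, Measure.addHaar_image_continuousLinearEquiv,
      Measure.addHaar_image_continuousLinearEquiv, ← mul_assoc, mul_comm ((n + 2 : ℕ) : ℝ≥0∞),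
      mul_assoc] at h1
    have hdet : LinearMap.det (A : (Fin (n + 1) → ℝ) →ₗ[ℝ] (Fin (n + 1) → ℝ)) ≠ 0 :=
      (LinearEquiv.isUnit_det' A.toLinearEquiv).ne_zero
    have hpos : ENNReal.ofReal |LinearMap.det (A : (Fin (n + 1) → ℝ) →ₗ[ℝ] (Fin (n + 1) → ℝ))| ≠ 0 := by
      rw [Ne, ENNReal.ofReal_eq_zero, not_le]
      positivity
    exact (ENNReal.mul_le_mul_iff_right hpos ENNReal.ofReal_ne_top).1 h1

theorem l1_ball_volume (n : ℕ) (y : Fin (n + 1) → ℝ) :
    volume {x : Fin (n + 1) → ℝ | ∑ i, |x i - y i| ≤ 1} =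
      ENNReal.ofReal (2 ^ (n + 1) / (n + 1).factorial) := by
  have h1 : {x : Fin (n + 1) → ℝ | ∑ i, |x i - y i| ≤ 1} =
      (fun x => -y + x) ⁻¹' {x : Fin (n + 1) → ℝ | (∑ i, |x i| ^ (1:ℝ)) ^ (1 / (1:ℝ)) ≤ 1} := by
    ext x
    simp only [mem_ofPred_eq, mem_preimage, Pi.add_apply, Pi.neg_apply, Real.rpow_one, div_one]
    have : ∀ i, |x i - y i| = |-y i + x i| := fun i => by congr 1; ring
    simp [this]
  rw [h1, measure_preimage_add, MeasureTheory.volume_sum_rpow_le (Fin (n + 1)) le_rfl]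
  simp only [ENNReal.ofReal_one, one_pow, one_mul, Fintype.card_fin, div_one]
  congr 1
  have h2 : Real.Gamma (1 + 1) = 1 := by
    have := Real.Gamma_nat_eq_factorial 1
    simpa using this
  rw [h2, mul_one, Real.Gamma_nat_eq_factorial]

end Pool.Agent.TH575.TrVol
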